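import Pool.Agent.X233.GP.Main

open DirectSum CategoryTheory

namespace X233.GP

universe u

set_option linter.unusedSectionVars false

section appr

variable {S : Type u} [Ring S] {𝒮 : ℤ → AddSubgroup S}

/-- a gradable module becomes a module over the projection ring -/
theorem exists_T [GradedRing 𝒮] (M : Type u) [AddCommGroup M] [Module S M]
    (h : GradableL 𝒮 M) :
    ∃ (_ : Module (TT S 𝒮) M) (_ : IsScalarTower S (TT S 𝒮) M), LF S 𝒮 M := by
  classical
  obtain ⟨ℳ, hint, hsm⟩ := h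
  let dec : DirectSum.Decomposition ℳ := hint.chooseDecomposition
  let p : ℤ → AddMonoid.End M := fun i =>
    (((ℳ i).subtype).comp (DFinsupp.evalAddMonoidHom i)).comp
      (DirectSum.decomposeAddEquiv ℳ).toAddMonoidHom
  have p_apply : ∀ i m, p i m = (DirectSum.decompose ℳ m i : M) := fun i m => rfl
  have p_mem : ∀ i k m, m ∈ ℳ k → p i m = if i = k then m else 0 := by
    intro i k m hm
    rw [p_apply, DirectSum.decompose_of_mem ℳ hm]
    split_ifs with h
    · subst h; rw [DirectSum.of_eq_same]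
    · rw [DirectSum.of_eq_of_ne _ _ _ h]; rfl
  have p_in : ∀ i m, p i m ∈ ℳ i := fun i m => (DirectSum.decompose ℳ m i).2
  obtain ⟨φ, hφr, hφp⟩ := exists_liftT S 𝒮 (Module.toAddMonoidEnd S M) p
    (by
      intro i
      refine DFunLike.ext _ _ fun m => ?_
      change p i (p i m) = p i m
      rw [p_mem i i _ (p_in i m), if_pos rfl])
    (by
      intro i j h
      refine DFunLike.ext _ _ fun m => ?_
      change p i (p j m) = 0
      rw [p_mem i j _ (p_in j m), if_neg h])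
    (by
      intro i j a ha
      refine DFunLike.ext _ _ fun m => ?_
      change p (i + j) (a • m) = a • p i m
      induction m using DirectSum.Decomposition.inductionOn ℳ with
      | zero => rw [smul_zero, map_zero, map_zero, smul_zero]
      | homogeneous m =>
        rename_i k
        rw [p_mem (i + j) (j + k) _ (hsm j k a ha _ m.2), p_mem i k _ m.2]
        by_cases h : i = k
        · rw [if_pos h, if_pos (by rw [h, add_comm])]
        · rw [if_neg h, if_neg (by omega), smul_zero]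
      | add m m' h1 h2 => rw [smul_add, map_add, map_add, h1, h2, smul_add])
  let inst : Module (TT S 𝒮) M := Module.compHom M φ
  have hr : ∀ (a : S) (m : M), rT S 𝒮 a • m = a • m := by
    intro a m
    change φ (rT S 𝒮 a) m = a • m
    rw [hφr]; rfl
  have hp : ∀ i (m : M), pT S 𝒮 i • m = p i m := by
    intro i m
    change φ (pT S 𝒮 i) m = p i m
    rw [hφp]
  refine ⟨inst, ⟨fun a t m => ?_⟩, ?_⟩
  · change (rT S 𝒮 a * t) • m = _
    rw [mul_smul, hr]
  · intro m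
    refine ⟨(DirectSum.decompose ℳ m).support, ?_⟩
    simp_rw [hp, p_apply]
    exact (DirectSum.sum_support_decompose ℳ m).symm

variable {V W : Type u} [AddCommGroup V] [Module S V] [Module (TT S 𝒮) V]
  [IsScalarTower S (TT S 𝒮) V] [AddCommGroup W] [Module S W] [Module (TT S 𝒮) W]
  [IsScalarTower S (TT S 𝒮) W]

noncomputable def shiftMap (d : ℤ) (f : V →ₗ[TT S 𝒮] W) : Shift d V →ₗ[TT S 𝒮] Shift d W where
  toFun v := toSh d (f (unSh d v))
  map_add' v w := by rw [map_add, map_add, map_add]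
  map_smul' t v := by
    rw [unSh_smul, map_smul, RingHom.id_apply, toSh_smul]

instance (d : ℤ) [h : Module.Finite S V] : Module.Finite S (Shift d V) := h

theorem LF.shift (h : LF S 𝒮 V) (d : ℤ) : LF S 𝒮 (Shift d V) := by
  intro v
  obtain ⟨s, hs⟩ := h (unSh d v)
  refine ⟨s.image (fun i => i - d), ?_⟩
  rw [Finset.sum_image (fun a _ b _ hab => by simpa using hab)]
  have h1 : ∀ i, pT S 𝒮 (i - d) • v = toSh d (pT S 𝒮 i • unSh d v) := by
    intro i
    have : pT S 𝒮 (i - d) • v = toSh d (sg S 𝒮 d (pT S 𝒮 (i - d)) • unSh d v) := rfl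
    rw [this, sg_p, sub_add_cancel]
  simp_rw [h1]
  rw [← map_sum, ← hs]
  rfl

theorem LF.prod (h : LF S 𝒮 V) (h' : LF S 𝒮 W) : LF S 𝒮 (V × W) := by
  intro v
  obtain ⟨s, hs⟩ := h v.1
  obtain ⟨t, ht⟩ := h' v.2
  refine ⟨s ∪ t, ?_⟩
  apply Prod.ext
  · rw [Prod.fst_sum]
    simp only [Prod.smul_fst]
    exact h.sum fun i hi => LF.finset hs fun h => hi (Finset.mem_union_left _ h)
  · rw [Prod.snd_sum]
    simp only [Prod.smul_snd]
    exact h'.sum fun i hi => LF.finset ht fun h => hi (Finset.mem_union_right _ h)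

/-- homogeneous components of an ungraded map between graded modules -/
theorem exists_components [GradedRing 𝒮] [IsArtinianRing S] [IsNoetherianRing S]
    [Module.Finite S V] [Module.Finite S W] (hV : LF S 𝒮 V) (hW : LF S 𝒮 W) (h : V →ₗ[S] W) :
    ∃ (D : Finset ℤ) (hd : ∀ d : ℤ, V →ₗ[TT S 𝒮] Shift d W),
      ∀ v, h v = ∑ d ∈ D, unSh d (hd d v) := by
  have hVW := hV.prod hW
  obtain ⟨c, hc⟩ := FS_fin hVW
  let e : (V × W) →ₗ[S] (V × W) := LinearMap.inr S V W ∘ₗ h ∘ₗ LinearMap.fst S V W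
  refine ⟨Finset.Icc (-(2 * c : ℤ)) (2 * c), fun d => shiftMap d (LinearMap.snd (TT S 𝒮) V W) ∘ₗ
    cmpT hVW e d ∘ₗ LinearMap.inl (TT S 𝒮) V W, ?_⟩
  intro v
  have h1 := cmp_sum hVW hc e (v, 0)
  have h2 : (e (v, 0)).2 = h v := rfl
  rw [← h2, h1, Prod.snd_sum]
  rfl

/-- action on the hat, coordinatewise -/
theorem hat_smul_apply [GradedRing 𝒮] {Y : Type u} [AddCommGroup Y] [Module S Y] {k : ℤ} {a : S}
    (ha : a ∈ 𝒮 k) (F : Hat 𝒮 Y) (i : ℤ) :
    (show ℤ →₀ Y from a • F) i = a • (show ℤ →₀ Y from F) (i - k) := by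
  have h : ((Finsupp.applyAddHom i).comp
      (DistribSMul.toAddMonoidHom (Hat 𝒮 Y) a) : Hat 𝒮 Y →+ Y) =
      (DistribSMul.toAddMonoidHom Y a).comp (Finsupp.applyAddHom (i - k)) := by
    apply hat_ext
    intro j y
    change (show ℤ →₀ Y from a • sgl 𝒮 Y j y) i = a • (Finsupp.single j y : ℤ →₀ Y) (i - k)
    rw [hat_smul 𝒮 ha]
    change (Finsupp.single (j + k) (a • y) : ℤ →₀ Y) i = _
    by_cases hij : i - k = j
    · have : i = j + k := by omega
      rw [hij, this, Finsupp.single_eq_same, Finsupp.single_eq_same]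
    · rw [Finsupp.single_eq_of_ne (by omega), Finsupp.single_eq_of_ne hij, smul_zero]
  exact DFunLike.congr_fun h F

/-- the graded map into the hat attached to an ungraded map -/
theorem exists_hatMap [GradedRing 𝒮] (hV : LF S 𝒮 V) {N : Type u} [AddCommGroup N] [Module S N]
    (f : V →ₗ[S] N) : ∃ χ : V →ₗ[TT S 𝒮] Hat 𝒮 N, ∀ v, ev 𝒮 (χ v) = f v := by
  classical
  let g : V → (ℤ →₀ N) := fun v => Finsupp.ofSupportFinite (fun i => f (pT S 𝒮 i • v))
    ((hV.finite v).subset fun i hi h0 => hi (by simp only; rw [h0, map_zero]))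
  have g_apply : ∀ v i, g v i = f (pT S 𝒮 i • v) := fun v i => rfl
  have g_add : ∀ v w, g (v + w) = g v + g w := by
    intro v w
    ext i
    rw [Finsupp.add_apply, g_apply, g_apply, g_apply, smul_add, map_add]
  let G : V →+ Hat 𝒮 N := AddMonoidHom.mk' g g_add
  have G_apply : ∀ v i, (show ℤ →₀ N from G v) i = f (pT S 𝒮 i • v) := fun v i => rfl
  have G_smul : ∀ (a : S) v, G (a • v) = a • G v := by
    intro a
    induction a using DirectSum.Decomposition.inductionOn 𝒮 with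
    | zero => intro v; rw [zero_smul, zero_smul, map_zero]
    | homogeneous a =>
      rename_i k
      intro v
      refine Finsupp.ext fun i => ?_
      rw [G_apply, hat_smul_apply a.2, G_apply, p_smul a.2, map_smul]
    | add a b h1 h2 => intro v; rw [add_smul, map_add, h1, h2, add_smul]
  have G_p : ∀ j v, G (pT S 𝒮 j • v) = pT S 𝒮 j • G v := by
    intro j v
    rw [hat_p]
    refine Finsupp.ext fun i => ?_
    rw [G_apply]
    change _ = (Finsupp.single j ((show ℤ →₀ N from G v) j) : ℤ →₀ N) i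
    rw [G_apply]
    by_cases hij : i = j
    · subst hij; rw [Finsupp.single_eq_same, p_same]
    · rw [Finsupp.single_eq_of_ne hij, p_ne hij, map_zero]
  refine ⟨mkLin G G_smul G_p, ?_⟩
  intro v
  obtain ⟨s, hs⟩ := hV v
  have h1 : mkLin G G_smul G_p v = ∑ i ∈ s, sgl 𝒮 N i (f (pT S 𝒮 i • v)) := by
    change G v = _
    conv_lhs => rw [hs, map_sum]
    apply Finset.sum_congr rfl
    intro i _
    rw [G_p, hat_p, G_apply]
  rw [h1, map_sum]
  simp_rw [ev_sgl]
  rw [← map_sum, ← hs]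

/-- an indecomposable graded summand on which an element survives -/
theorem find_indec {Y : Type u} [AddCommGroup Y] (ζ : Hat 𝒮 Y →+ Y) [IsArtinianRing S]
    [IsNoetherianRing S]
    {Z : Type u} [AddCommGroup Z] [Module S Z] [Module (TT S 𝒮) Z] [Module (TT S 𝒮) (Hat 𝒮 Y)]
    [IsScalarTower S (TT S 𝒮) Z] (hfin : Module.Finite S Z) (hZ : LF S 𝒮 Z)
    (x : Z) (χ : Z →ₗ[TT S 𝒮] Hat 𝒮 Y) (hx : ζ (χ x) ≠ 0) :
    ∃ (V : ModuleCat.{u} (TT S 𝒮)) (_ : Module S V) (_ : IsScalarTower S (TT S 𝒮) V),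
      Module.Finite S V ∧ LF S 𝒮 V ∧ Indec (TT S 𝒮) V ∧
      ∃ (j : V →ₗ[TT S 𝒮] Z) (q : Z →ₗ[TT S 𝒮] V), q ∘ₗ j = LinearMap.id ∧
        ζ (χ (j (q x))) ≠ 0 := by
  have ia : IsArtinian S Z := inferInstance
  have ino : IsNoetherian S Z := inferInstance
  have ia' : IsArtinian (TT S 𝒮) Z := isArtinian_of_tower S ia
  have ino' : IsNoetherian (TT S 𝒮) Z := isNoetherian_of_tower S ino
  refine decomp_induction (R := TT S 𝒮) (fun (M : Type u) _ _ => ∀ [Module S M]
    [IsScalarTower S (TT S 𝒮) M], Module.Finite S M → LF S 𝒮 M →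
    ∀ (x : M) (χ : M →ₗ[TT S 𝒮] Hat 𝒮 Y), ζ (χ x) ≠ 0 →
    ∃ (V : ModuleCat.{u} (TT S 𝒮)) (_ : Module S V) (_ : IsScalarTower S (TT S 𝒮) V),
      Module.Finite S V ∧ LF S 𝒮 V ∧ Indec (TT S 𝒮) V ∧
      ∃ (j : V →ₗ[TT S 𝒮] M) (q : M →ₗ[TT S 𝒮] V), q ∘ₗ j = LinearMap.id ∧
        ζ (χ (j (q x))) ≠ 0) ?_ ?_ ?_ Z hfin hZ x χ hx
  · intro M _ _ hs _ _ _ _ x χ hx
    exfalso
    apply hx
    rw [Subsingleton.elim x 0, map_zero, map_zero]
  · intro M _ _ hInd _ _ hfin hLF x χ hx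
    exact ⟨ModuleCat.of (TT S 𝒮) M, ‹_›, ‹_›, hfin, hLF, hInd, LinearMap.id,
      LinearMap.id, rfl, hx⟩
  · intro M _ _ A B hAB hA hB _ _ hfin hLF x χ hx
    have gen : ∀ (A B : Submodule (TT S 𝒮) M) (hAB : IsCompl A B),
        (∀ (x : A) (χ : A →ₗ[TT S 𝒮] Hat 𝒮 Y), ζ (χ x) ≠ 0 →
          ∃ (V : ModuleCat.{u} (TT S 𝒮)) (_ : Module S V) (_ : IsScalarTower S (TT S 𝒮) V),
            Module.Finite S V ∧ LF S 𝒮 V ∧ Indec (TT S 𝒮) V ∧
            ∃ (j : V →ₗ[TT S 𝒮] A) (q : A →ₗ[TT S 𝒮] V), q ∘ₗ j = LinearMap.id ∧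
              ζ (χ (j (q x))) ≠ 0) →
        ζ (χ (A.projectionOnto B hAB x : A)) ≠ 0 →
        ∃ (V : ModuleCat.{u} (TT S 𝒮)) (_ : Module S V) (_ : IsScalarTower S (TT S 𝒮) V),
          Module.Finite S V ∧ LF S 𝒮 V ∧ Indec (TT S 𝒮) V ∧
          ∃ (j : V →ₗ[TT S 𝒮] M) (q : M →ₗ[TT S 𝒮] V), q ∘ₗ j = LinearMap.id ∧
            ζ (χ (j (q x))) ≠ 0 := by
      intro A B hAB hA hx'
      obtain ⟨V, i1, i2, h1, h2, h3, j, q, hjq, h5⟩ := hA
        (A.projectionOnto B hAB x) (χ ∘ₗ A.subtype) hx'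
      refine ⟨V, i1, i2, h1, h2, h3, A.subtype ∘ₗ j, q ∘ₗ A.projectionOnto B hAB, ?_, h5⟩
      ext v
      have h6 := LinearMap.congr_fun hjq v
      simp only [LinearMap.comp_apply, LinearMap.id_apply, Submodule.subtype_apply,
        Submodule.projectionOnto_apply_left] at h6 ⊢
      exact h6
    have hsum : (A.projectionOnto B hAB x : M) + (B.projectionOnto A hAB.symm x : M) = x := by
      have := Submodule.projection_add_projection_eq_self hAB x
      simpa using this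
    have hfA : Module.Finite S A := Module.Finite.of_surjective
      ((A.projectionOnto B hAB).restrictScalars S) (Submodule.projectionOnto_surjective hAB)
    have hfB : Module.Finite S B := Module.Finite.of_surjective
      ((B.projectionOnto A hAB.symm).restrictScalars S)
      (Submodule.projectionOnto_surjective hAB.symm)
    by_cases h1 : ζ (χ (A.projectionOnto B hAB x : A)) = 0
    · apply gen B A hAB.symm (fun x χ hx => hB hfB (hLF.sub B) x χ hx)
      intro h2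
      apply hx
      rw [← hsum, map_add, map_add, h1, h2, add_zero]
    · exact gen A B hAB (fun x χ hx => hA hfA (hLF.sub A) x χ hx) h1

/-- the indecomposable case -/
theorem approx_indec [GradedRing 𝒮] [IsArtinianRing S] [IsNoetherianRing S]
    {C N : Type u} [AddCommGroup C] [Module S C] [Module.Finite S C] [AddCommGroup N]
    [Module S N] [Module.Finite S N] (hN : Indec S N) (hC : GradableL 𝒮 C) (f : C →ₗ[S] N)
    (hf : ∀ (Z : Type u) [AddCommGroup Z] [Module S Z], Module.Finite S Z → GradableL 𝒮 Z →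
      ∀ g : Z →ₗ[S] N, ∃ h : Z →ₗ[S] C, g = f ∘ₗ h) : GradableL 𝒮 N := by
  by_contra hng
  obtain ⟨_, _, hCL⟩ := exists_T C hC
  have iaC : IsArtinian S C := inferInstance
  have inoC : IsNoetherian S C := inferInstance
  obtain ⟨b, hb⟩ := ENat.ne_top_iff_exists.mp (Module.length_ne_top (R := S) (M := C))
  -- step
  have step : ∀ (Z : Submodule (TT S 𝒮) (Hat 𝒮 N)), Module.Finite S Z → ∀ x : Z,
      ev 𝒮 (x : Hat 𝒮 N) ≠ 0 →
      ∃ (V : ModuleCat.{u} (TT S 𝒮)) (_ : Module S V) (_ : IsScalarTower S (TT S 𝒮) V),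
        Module.Finite S V ∧ LF S 𝒮 V ∧ Indec (TT S 𝒮) V ∧ Module.length (TT S 𝒮) V ≤ b ∧
        ∃ (g : Z →ₗ[TT S 𝒮] V) (φ : V →ₗ[TT S 𝒮] Hat 𝒮 N), ev 𝒮 (φ (g x)) ≠ 0 := by
    intro Z hZf x hx
    have hZL : LF S 𝒮 Z := (hat_LF 𝒮).sub Z
    obtain ⟨h, hh⟩ := hf Z hZf (gradable_of_equiv hZL (LinearEquiv.refl S Z))
      (ev 𝒮 ∘ₗ Z.subtype.restrictScalars S)
    obtain ⟨D, hd, hsum⟩ := exists_components hZL hCL h
    have hx2 : f (h x) ≠ 0 := by
      have := LinearMap.congr_fun hh x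
      intro h0
      apply hx
      rw [LinearMap.comp_apply, LinearMap.comp_apply, h0] at this
      exact this
    have hex : ∃ d, f (unSh d (hd d x)) ≠ 0 := by
      by_contra hcon
      push Not at hcon
      apply hx2
      rw [hsum x, map_sum]
      exact Finset.sum_eq_zero fun d _ => hcon d
    obtain ⟨d, hd0⟩ := hex
    let fd : Shift d C →ₗ[S] N :=
      { toFun := fun c => f (unSh d c)
        map_add' := fun a b => by rw [map_add, map_add]
        map_smul' := fun a c => f.map_smul a (unSh d c) }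
    obtain ⟨χ, hχ⟩ := exists_hatMap (hCL.shift d) fd
    have hne : (ev 𝒮 : Hat 𝒮 N →ₗ[S] N).toAddMonoidHom (χ (hd d x)) ≠ 0 := by
      change ev 𝒮 (χ (hd d x)) ≠ 0
      rw [hχ]; exact hd0
    obtain ⟨V, i1, i2, h1, h2, h3, j, q, hjq, h5⟩ := find_indec
      (ev 𝒮 : Hat 𝒮 N →ₗ[S] N).toAddMonoidHom (inferInstance : Module.Finite S (Shift d C))
      (hCL.shift d) (hd d x) χ hne
    refine ⟨V, i1, i2, h1, h2, h3, ?_, q ∘ₗ hd d, χ ∘ₗ j, h5⟩
    have hinj : Function.Injective j :=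
      Function.LeftInverse.injective fun x => LinearMap.congr_fun hjq x
    refine le_trans (Module.length_le_of_injective j hinj) ?_
    rw [shift_length, hb]
    exact length_T_le
  obtain ⟨y, hy⟩ := @exists_ne _ hN.1 (0 : N)
  obtain ⟨Z₀, hZ₀f, _, hZ₀⟩ := window (𝒮 := 𝒮) (Y := N) (V := PUnit) 0 0
  obtain ⟨V₀, i1, i2, h1, h2, h3, h4, g₀, φ₀, h5⟩ := step Z₀ hZ₀f ⟨sgl 𝒮 N 0 y, hZ₀ 0 (by simp) y⟩
    (by
      change ev 𝒮 (sgl 𝒮 N 0 y) ≠ 0
      rw [ev_sgl]; exact hy)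
  set x₀ := g₀ ⟨sgl 𝒮 N 0 y, hZ₀ 0 (by simp) y⟩ with hx₀
  obtain ⟨w, hw⟩ := deg_bound (𝒮 := 𝒮) N
  refine no_path b V₀ (fun M ψ => ∃ (_ : Module S M) (_ : IsScalarTower S (TT S 𝒮) M),
    Module.Finite S M ∧ LF S 𝒮 M ∧ Indec (TT S 𝒮) M ∧ Module.length (TT S 𝒮) M ≤ b ∧
    ∃ φ : M →ₗ[TT S 𝒮] Hat 𝒮 N, ev 𝒮 (φ (ψ.hom x₀)) ≠ 0) ?_ ?_ ?_
  · exact ⟨V₀, 𝟙 _, i1, i2, h1, h2, h3, h4, φ₀, h5⟩
  · rintro M ψ ⟨_, _, _, _, hMI, hMl, φ, hφ⟩
    refine ⟨?_, hMI, hMl⟩
    intro h0
    apply hφ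
    rw [h0, LinearMap.zero_apply, map_zero, map_zero]
  · rintro M ψ ⟨_, _, hMf, hML, hMI, hMl, φ, hφ⟩
    obtain ⟨c, hc⟩ := FS_fin hML
    obtain ⟨Z, hZf, hφZ, hZ⟩ := window φ (c + w)
    obtain ⟨V', k1, k2, m1, m2, m3, m4, g', φ', m5⟩ := step Z hZf ⟨φ (ψ.hom x₀), hφZ _⟩ hφ
    let φ1 : M →ₗ[TT S 𝒮] Z := φ.codRestrict Z hφZ
    refine ⟨V', ModuleCat.ofHom (g' ∘ₗ φ1), ?_, k1, k2, m1, m2, m3, m4, φ', m5⟩
    intro hbij
    let E : M ≃ₗ[TT S 𝒮] V' := LinearEquiv.ofBijective (g' ∘ₗ φ1) hbij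
    have hs : SummandOf S M N := retraction hML hMI φ hc hw Z hφZ hZ
      (E.symm.toLinearMap ∘ₗ g') (by
        intro v
        change E.symm (g' (φ1 v)) = v
        exact E.symm_apply_apply v)
    obtain ⟨i, r, hir⟩ := hs
    have hbij2 := hN.bij_of_summand hMI.1 i r hir
    exact hng (gradable_of_equiv hML (LinearEquiv.ofBijective i hbij2))

/-- A finitely generated module with a right approximation by gradable modules is gradable. -/
theorem approx_left [GradedRing 𝒮] [IsArtinianRing S] [IsNoetherianRing S]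
    {C N : Type u} [AddCommGroup C] [Module S C] [Module.Finite S C] [AddCommGroup N]
    [Module S N] [hNf : Module.Finite S N] (hC : GradableL 𝒮 C) (f : C →ₗ[S] N)
    (hf : ∀ (Z : Type u) [AddCommGroup Z] [Module S Z], Module.Finite S Z → GradableL 𝒮 Z →
      ∀ g : Z →ₗ[S] N, ∃ h : Z →ₗ[S] C, g = f ∘ₗ h) : GradableL 𝒮 N := by
  have ia : IsArtinian S N := inferInstance
  have ino : IsNoetherian S N := inferInstance
  refine decomp_induction (R := S) (fun (M : Type u) _ _ => Module.Finite S M →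
    ∀ f : C →ₗ[S] M, (∀ (Z : Type u) [AddCommGroup Z] [Module S Z], Module.Finite S Z →
      GradableL 𝒮 Z → ∀ g : Z →ₗ[S] M, ∃ h : Z →ₗ[S] C, g = f ∘ₗ h) → GradableL 𝒮 M)
    ?_ ?_ ?_ N hNf f hf
  · intro M _ _ hs _ _ _
    have hP : LF S 𝒮 PUnit.{u + 1} := fun v => ⟨∅, Subsingleton.elim _ _⟩
    exact gradable_of_equiv (V := PUnit.{u + 1}) hP (0 : PUnit.{u + 1} ≃ₗ[S] M)
  · intro M _ _ hI hMf f hf
    exact approx_indec hI hC f hf
  · intro M _ _ A B hAB hA hB hMf f hf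
    have hAg : GradableL 𝒮 A := by
      have hfA : Module.Finite S A := Module.Finite.of_surjective
        (A.projectionOnto B hAB) (Submodule.projectionOnto_surjective hAB)
      apply hA hfA (A.projectionOnto B hAB ∘ₗ f)
      intro Z _ _ hZf hZg g
      obtain ⟨h, hh⟩ := hf Z hZf hZg (A.subtype ∘ₗ g)
      refine ⟨h, ?_⟩
      ext z
      have := LinearMap.congr_fun hh z
      simp only [LinearMap.comp_apply, Submodule.subtype_apply] at this ⊢
      rw [← this, Submodule.projectionOnto_apply_left]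
    have hBg : GradableL 𝒮 B := by
      have hfB : Module.Finite S B := Module.Finite.of_surjective
        (B.projectionOnto A hAB.symm) (Submodule.projectionOnto_surjective hAB.symm)
      apply hB hfB (B.projectionOnto A hAB.symm ∘ₗ f)
      intro Z _ _ hZf hZg g
      obtain ⟨h, hh⟩ := hf Z hZf hZg (B.subtype ∘ₗ g)
      refine ⟨h, ?_⟩
      ext z
      have := LinearMap.congr_fun hh z
      simp only [LinearMap.comp_apply, Submodule.subtype_apply] at this ⊢
      rw [← this, Submodule.projectionOnto_apply_left]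
    obtain ⟨_, _, hAL⟩ := exists_T A hAg
    obtain ⟨_, _, hBL⟩ := exists_T B hBg
    exact gradable_of_equiv (hAL.prod hBL) (Submodule.prodEquivOfIsCompl A B hAB)

end appr

end X233.GP
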