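import Pool.Agent.X233.GP.Hat

open DirectSum

namespace X233.GP

universe u

set_option linter.unusedSectionVars false

theorem no_inf {D : Set ℤ} (hD : D.Finite) {e a : ℤ} (he : e ≠ 0)
    (h : ∀ k : ℕ, a + k * e ∈ D) : False := by
  have hinj : Function.Injective (fun k : ℕ => a + k * e) := by
    intro k l hkl
    simp only [add_right_inj] at hkl
    exact_mod_cast mul_right_cancel₀ he hkl
  exact Set.infinite_of_injective_forall_mem hinj h hD

theorem max_inter {T : Type*} [Ring T] {C : Type*} [AddCommGroup C] [Module T C] {ι : Type*}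
    (W : ι → Type*) [∀ k, AddCommGroup (W k)] [∀ k, Module T (W k)]
    [∀ k, IsSimpleModule T (W k)] (h : ∀ k, C →ₗ[T] W k)
    (s : Finset ι) (n : ι) (hn : Function.Surjective (h n))
    (hle : s.inf (fun k => LinearMap.ker (h k)) ≤ LinearMap.ker (h n)) :
    ∃ k ∈ s, Nonempty (W k ≃ₗ[T] W n) := by
  classical
  induction s using Finset.induction_on with
  | empty =>
    exfalso
    rw [Finset.inf_empty, top_le_iff, LinearMap.ker_eq_top] at hle
    have : Nontrivial (W n) := IsSimpleModule.nontrivial T (W n)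
    obtain ⟨w, hw⟩ := exists_ne (0 : W n)
    obtain ⟨x, hx⟩ := hn w
    rw [hle] at hx
    exact hw hx.symm
  | insert a s ha ih =>
    by_cases hD : s.inf (fun k => LinearMap.ker (h k)) ≤ LinearMap.ker (h n)
    · obtain ⟨k, hk, e⟩ := ih hD
      exact ⟨k, Finset.mem_insert_of_mem hk, e⟩
    refine ⟨a, Finset.mem_insert_self _ _, ?_⟩
    set D := s.inf (fun k => LinearMap.ker (h k)) with hDdef
    let φ : D →ₗ[T] W n := h n ∘ₗ D.subtype
    let ψ : D →ₗ[T] W a := h a ∘ₗ D.subtype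
    have hker : LinearMap.ker ψ ≤ LinearMap.ker φ := by
      intro x hx
      have h1 : (x : C) ∈ (insert a s).inf (fun k => LinearMap.ker (h k)) := by
        rw [Finset.inf_insert]
        exact ⟨hx, x.2⟩
      exact hle h1
    have hφ : φ ≠ 0 := by
      intro h0
      apply hD
      intro x hx
      exact LinearMap.congr_fun h0 ⟨x, hx⟩
    have hψ : ψ ≠ 0 := by
      intro h0
      apply hφ
      rw [← LinearMap.ker_eq_top, eq_top_iff, ← LinearMap.ker_eq_top.mpr h0]
      exact hker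
    have hψs : Function.Surjective ψ := LinearMap.surjective_of_ne_zero hψ
    let θ : W a →ₗ[T] W n := (LinearMap.ker ψ).liftQ φ hker ∘ₗ
      (ψ.quotKerEquivOfSurjective hψs).symm.toLinearMap
    have hθ : θ ≠ 0 := by
      intro h0
      apply hφ
      ext x
      have h1 := LinearMap.congr_fun h0 (ψ x)
      have h2 : (ψ.quotKerEquivOfSurjective hψs).symm (ψ x) = (LinearMap.ker ψ).mkQ x := by
        rw [LinearEquiv.symm_apply_eq]; rfl
      simp only [θ, LinearMap.comp_apply, LinearEquiv.coe_coe, h2] at h1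
      exact h1
    exact ⟨LinearEquiv.ofBijective θ (LinearMap.bijective_of_ne_zero hθ)⟩

section fin

variable {S : Type u} [Ring S] {𝒮 : ℤ → AddSubgroup S}
variable {V : Type u} [AddCommGroup V] [Module S V] [Module (TT S 𝒮) V]
  [IsScalarTower S (TT S 𝒮) V]

theorem noShift {d : ℤ} (hd : d ≠ 0) (hV : LF S 𝒮 V) [IsArtinian S V] (f : V →ₗ[S] V)
    (hf : Function.Injective f)
    (hdeg : ∀ i v, pT S 𝒮 (i + d) • f v = f (pT S 𝒮 i • v)) : Subsingleton V := by
  have hf0 : ∀ v, f v = 0 → v = 0 := fun v hv => hf (by rw [hv, map_zero])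
  have inj : Function.Injective (LinearMap.id - f : V →ₗ[S] V) := by
    rw [← LinearMap.ker_eq_bot, eq_bot_iff]
    intro x hx
    rw [LinearMap.mem_ker, LinearMap.sub_apply, LinearMap.id_apply, sub_eq_zero] at hx
    rw [Submodule.mem_bot]
    apply hV.eq_zero
    intro i
    by_contra hi
    apply no_inf (hV.finite x) hd (a := i)
    intro k
    induction k with
    | zero => simpa using hi
    | succ k ih =>
      intro h0
      apply ih
      apply hf0
      rw [← hdeg, ← hx]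
      rw [← h0]; congr 2; push_cast; ring
  have surj := IsArtinian.surjective_of_injective_endomorphism _ inj
  by_contra hns
  rw [not_subsingleton_iff_nontrivial] at hns
  obtain ⟨v, hv⟩ := exists_ne (0 : V)
  have : ∃ a, pT S 𝒮 a • v ≠ 0 := by
    by_contra hcon
    push Not at hcon
    exact hv (hV.eq_zero hcon)
  obtain ⟨a, ha⟩ := this
  obtain ⟨b, hb⟩ := surj (pT S 𝒮 a • v)
  rw [LinearMap.sub_apply, LinearMap.id_apply] at hb
  have e1 : ∀ i, pT S 𝒮 i • b - f (pT S 𝒮 (i - d) • b) = pT S 𝒮 i • pT S 𝒮 a • v := by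
    intro i
    rw [← hb, smul_sub, ← hdeg, sub_add_cancel]
  have e2 : ∀ i, i ≠ a → pT S 𝒮 i • b = f (pT S 𝒮 (i - d) • b) := by
    intro i hi
    have := e1 i
    rwa [p_ne hi, sub_eq_zero] at this
  by_cases hab : pT S 𝒮 a • b = 0
  · apply no_inf (hV.finite b) (neg_ne_zero.mpr hd) (a := a - d)
    intro k
    induction k with
    | zero =>
      intro h0
      simp only [Nat.cast_zero, zero_mul, add_zero] at h0
      apply ha
      have := e1 a
      rw [hab, h0, map_zero, sub_zero, p_same] at this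
      exact this.symm
    | succ k ih =>
      intro h0
      apply ih
      have hne : a - d + (k : ℤ) * -d ≠ a := by
        intro h1
        have : (((k : ℤ) + 1)) * d = 0 := by linarith
        rcases mul_eq_zero.mp this with h2 | h2
        · omega
        · exact hd h2
      rw [e2 _ hne]
      have : a - d + (k : ℤ) * -d - d = a - d + ((k + 1 : ℕ) : ℤ) * -d := by push_cast; ring
      rw [this, h0, map_zero]
  · apply no_inf (hV.finite b) hd (a := a)
    intro k
    induction k with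
    | zero => simpa using hab
    | succ k ih =>
      intro h0
      apply ih
      have hne : a + ((k + 1 : ℕ) : ℤ) * d ≠ a := by
        intro h1
        have : (((k : ℤ) + 1)) * d = 0 := by push_cast at h1; linarith
        rcases mul_eq_zero.mp this with h2 | h2
        · omega
        · exact hd h2
      rw [e2 _ hne] at h0
      have := hf0 _ h0
      rw [← this]; congr 2; push_cast; ring

variable (S 𝒮) in
def FS (V : Type u) [AddCommGroup V] [Module (TT S 𝒮) V] : Prop :=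
  ∃ c : ℕ, ∀ i : ℤ, (c : ℤ) < |i| → ∀ v : V, pT S 𝒮 i • v = 0

variable (S 𝒮) in
/-- the graded free module of rank one -/
noncomputable def Cyc : Submodule (TT S 𝒮) (TT S 𝒮) := Submodule.span (TT S 𝒮) {pT S 𝒮 0}

theorem pT_mem : pT S 𝒮 0 ∈ Cyc S 𝒮 := Submodule.subset_span rfl

instance shift_simple [IsSimpleModule (TT S 𝒮) V] (d : ℤ) :
    IsSimpleModule (TT S 𝒮) (Shift d V) := by
  rw [isSimpleModule_iff_toSpanSingleton_surjective]
  have hV := (isSimpleModule_iff_toSpanSingleton_surjective (R := TT S 𝒮) (M := V)).mp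
    inferInstance
  refine ⟨hV.1, ?_⟩
  intro x hx y
  obtain ⟨t, ht⟩ := hV.2 x hx y
  obtain ⟨t', rfl⟩ := sg_surj S 𝒮 d t
  exact ⟨t', ht⟩

theorem cyc_elt [GradedRing 𝒮] (x : TT S 𝒮) (hx : x ∈ Cyc S 𝒮) : ∃ b : S, x = b • pT S 𝒮 0 := by
  obtain ⟨t, rfl⟩ := Submodule.mem_span_singleton.mp hx
  have hz : pT S 𝒮 0 • pT S 𝒮 0 = pT S 𝒮 0 := pT_idem S 𝒮 0
  obtain ⟨b, hb⟩ := T_smul_homog hz t 1
  rw [one_smul] at hb
  exact ⟨b, hb⟩

theorem cyc_LF [GradedRing 𝒮] : LF S 𝒮 (Cyc S 𝒮) := by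
  classical
  intro x
  obtain ⟨b, hb⟩ := cyc_elt x.1 x.2
  have hz : pT S 𝒮 0 • pT S 𝒮 0 = pT S 𝒮 0 := pT_idem S 𝒮 0
  refine ⟨(DirectSum.decompose 𝒮 b).support, ?_⟩
  apply Subtype.ext
  simp only [AddSubmonoidClass.coe_finsetSum, Submodule.coe_smul]
  rw [hb]
  conv_lhs => rw [← DirectSum.sum_support_decompose 𝒮 b, Finset.sum_smul]
  apply Finset.sum_congr rfl
  intro i _
  rw [p_smul_homog hz i b]
  have : i - 0 = i := sub_zero i
  rw [this]

instance cyc_fin [GradedRing 𝒮] : Module.Finite S (Cyc S 𝒮) := by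
  have hs : ∀ z ∈ ({pT S 𝒮 0} : Set (TT S 𝒮)), ∃ j, pT S 𝒮 j • z = z := by
    rintro z rfl
    exact ⟨0, pT_idem S 𝒮 0⟩
  have h := span_homog hs
  have h2 : ((Cyc S 𝒮).restrictScalars S).FG := by
    unfold Cyc
    rw [h]
    exact ⟨{pT S 𝒮 0}, by simp⟩
  exact Module.Finite.iff_fg.mpr h2

theorem FS_simple [GradedRing 𝒮] [IsArtinianRing S] (hV : LF S 𝒮 V) [IsArtinian S V]
    [IsSimpleModule (TT S 𝒮) V] : FS S 𝒮 V := by
  by_contra hns
  have hinf : {i : ℤ | ∃ v : V, pT S 𝒮 i • v ≠ 0}.Infinite := by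
    intro hfin
    apply hns
    obtain ⟨c, hc⟩ := hfin.isBounded.exists_norm_le
    refine ⟨⌈c⌉₊, fun i hi v => ?_⟩
    by_contra hcon
    have h1 := hc i ⟨v, hcon⟩
    have h2 := Nat.le_ceil c
    have h3 : ((|i| : ℤ) : ℝ) = ‖i‖ := by
      rw [Int.norm_eq_abs, Int.cast_abs]
    have h4 : ((⌈c⌉₊ : ℤ) : ℝ) < ((|i| : ℤ) : ℝ) := by exact_mod_cast hi
    rw [h3] at h4
    push_cast at h4
    linarith
  let e := hinf.natEmbedding
  have hw : ∀ n, ∃ w : V, w ≠ 0 ∧ pT S 𝒮 (e n : ℤ) • w = w := by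
    intro n
    obtain ⟨v, hv⟩ := (e n).2
    exact ⟨_, hv, p_same _ _⟩
  choose w hw0 hw1 using hw
  let h : ∀ n, Cyc S 𝒮 →ₗ[TT S 𝒮] Shift (e n : ℤ) V := fun n =>
    (LinearMap.toSpanSingleton (TT S 𝒮) (Shift (e n : ℤ) V) (w n)) ∘ₗ (Cyc S 𝒮).subtype
  have hne : ∀ n, h n ≠ 0 := by
    intro n h0
    have := LinearMap.congr_fun h0 ⟨pT S 𝒮 0, pT_mem⟩
    have h1 : h n ⟨pT S 𝒮 0, pT_mem⟩ = w n := by
      change sg S 𝒮 (e n : ℤ) (pT S 𝒮 0) • w n = w n
      rw [sg_p, zero_add]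
      exact hw1 n
    rw [h1] at this
    exact hw0 n this
  have hart : IsArtinian S (Cyc S 𝒮) := inferInstance
  have hart2 : IsArtinian (TT S 𝒮) (Cyc S 𝒮) := isArtinian_of_tower S hart
  obtain ⟨s, hs⟩ := Finset.exists_inf_le (fun n => LinearMap.ker (h n))
  obtain ⟨n, hn⟩ := Infinite.exists_notMem_finset s
  obtain ⟨k, hk, ⟨E⟩⟩ := max_inter (fun n => Shift (e n : ℤ) V) h s n
    (LinearMap.surjective_of_ne_zero (hne n)) (hs n)
  have hkn : (e n : ℤ) - (e k : ℤ) ≠ 0 := by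
    intro h0
    have h1 : (e n : ℤ) = (e k : ℤ) := by omega
    have h2 := e.injective (Subtype.ext h1)
    exact hn (h2 ▸ hk)
  let f : V →ₗ[S] V := (E.restrictScalars S).toLinearMap
  have hsub := noShift hkn hV f E.injective (by
    intro i v
    have h1 := E.map_smul (pT S 𝒮 (i - (e k : ℤ))) (show Shift (e k : ℤ) V from v)
    rw [shift_smul, shift_smul, sg_p, sg_p, sub_add_cancel] at h1
    have h2 : i + ((e n : ℤ) - (e k : ℤ)) = i - (e k : ℤ) + (e n : ℤ) := by ring
    rw [h2]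
    exact h1.symm)
  have := IsSimpleModule.nontrivial (TT S 𝒮) V
  exact not_subsingleton V hsub

theorem FS_of_len [GradedRing 𝒮] [IsArtinianRing S] {V : Type u} [AddCommGroup V]
    [Module (TT S 𝒮) V] (hfin : IsFiniteLength (TT S 𝒮) V) :
    ∀ [Module S V] [IsScalarTower S (TT S 𝒮) V], IsArtinian S V → LF S 𝒮 V → FS S 𝒮 V := by
  induction hfin with
  | of_subsingleton =>
    intro _ _ _ _
    exact ⟨0, fun i _ v => Subsingleton.elim _ _⟩
  | of_simple_quotient hN ih =>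
    rename_i M _ _ N _
    intro _ _ hart hLF
    have ha2 : IsArtinian S (M ⧸ N) :=
      isArtinian_of_surjective M (N.mkQ.restrictScalars S) N.mkQ_surjective
    have ha1 : IsArtinian S N :=
      isArtinian_of_injective (N.subtype.restrictScalars S) N.subtype_injective
    obtain ⟨c1, h1⟩ := ih ha1 (hLF.sub N)
    obtain ⟨c2, h2⟩ := FS_simple (hLF.quot N)
    refine ⟨max c1 c2, fun i hi v => ?_⟩
    have hc1 : (c1 : ℤ) < |i| := lt_of_le_of_lt (by exact_mod_cast le_max_left _ _) hi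
    have hc2 : (c2 : ℤ) < |i| := lt_of_le_of_lt (by exact_mod_cast le_max_right _ _) hi
    have h3 := h2 i hc2 (N.mkQ v)
    rw [← map_smul] at h3
    have h4 : pT S 𝒮 i • v ∈ N := (Submodule.Quotient.mk_eq_zero N).mp h3
    have h5 := h1 i hc1 ⟨_, h4⟩
    have h6 := congrArg Subtype.val h5
    simp only [Submodule.coe_smul, ZeroMemClass.coe_zero] at h6
    rwa [p_same] at h6

theorem FS_fin [GradedRing 𝒮] [IsArtinianRing S] [IsNoetherianRing S] [Module.Finite S V]
    (hV : LF S 𝒮 V) : FS S 𝒮 V := by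
  have h1 : IsArtinian S V := inferInstance
  have h2 : IsNoetherian S V := inferInstance
  exact FS_of_len (isFiniteLength_iff_isNoetherian_isArtinian.mpr
    ⟨isNoetherian_of_tower S h2, isArtinian_of_tower S h1⟩) h1 hV

/-- a degree bound for the action on any module -/
theorem deg_bound [GradedRing 𝒮] [IsArtinianRing S] [IsNoetherianRing S]
    (Y : Type u) [AddCommGroup Y] [Module S Y] :
    ∃ c : ℕ, ∀ k : ℤ, (c : ℤ) < |k| → ∀ a ∈ 𝒮 k, ∀ y : Y, a • y = 0 := by
  obtain ⟨c, hc⟩ := FS_fin (S := S) (𝒮 := 𝒮) (V := Cyc S 𝒮) cyc_LF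
  refine ⟨c, fun k hk a ha y => ?_⟩
  have h1 := congrArg Subtype.val (hc k hk (a • ⟨pT S 𝒮 0, pT_mem⟩))
  have h2 : pT S 𝒮 k • a • pT S 𝒮 0 = 0 := h1
  rw [p_smul ha, sub_self] at h2
  have h3 : pT S 𝒮 0 • pT S 𝒮 0 = pT S 𝒮 0 := pT_idem S 𝒮 0
  rw [h3] at h2
  have h4 : a • sgl 𝒮 Y 0 y = 0 := by
    have : a • sgl 𝒮 Y 0 y = (a • pT S 𝒮 0) • sgl 𝒮 Y 0 y := by
      rw [smul_assoc, hat_p_sgl, if_pos rfl]
    rw [this, h2, zero_smul]
  rw [hat_smul 𝒮 ha] at h4
  have := congrArg (ev 𝒮) h4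
  rwa [ev_sgl, map_zero] at this

end fin

end X233.GP
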