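import Pool.Agent.X233.GP.Fin

open DirectSum CategoryTheory

namespace X233.GP

universe u

set_option linter.unusedSectionVars false

section gg

variable {S : Type u} [Ring S] {𝒮 : ℤ → AddSubgroup S}
variable {V : Type u} [AddCommGroup V] [Module S V] [Module (TT S 𝒮) V]
  [IsScalarTower S (TT S 𝒮) V]

variable (𝒮) in
/-- component of degree `d` of an endomorphism -/
noncomputable def cmp (e : V →ₗ[S] V) (d : ℤ) (v : V) : V :=
  ∑ᶠ i : ℤ, pT S 𝒮 (i + d) • e (pT S 𝒮 i • v)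

theorem cmp_supp (hV : LF S 𝒮 V) (e : V →ₗ[S] V) (d : ℤ) (v : V) :
    (Function.support fun i : ℤ => pT S 𝒮 (i + d) • e (pT S 𝒮 i • v)).Finite := by
  apply (hV.finite v).subset
  intro i hi h0
  apply hi
  simp only
  rw [h0, map_zero, smul_zero]

theorem cmp_add (hV : LF S 𝒮 V) (e : V →ₗ[S] V) (d : ℤ) (v w : V) :
    cmp 𝒮 e d (v + w) = cmp 𝒮 e d v + cmp 𝒮 e d w := by
  unfold cmp
  rw [← finsum_add_distrib (cmp_supp hV e d v) (cmp_supp hV e d w)]
  congr 1; ext i
  rw [smul_add, map_add, smul_add]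

theorem cmp_zero (e : V →ₗ[S] V) (d : ℤ) : cmp 𝒮 e d (0 : V) = 0 := by
  unfold cmp
  simp

theorem cmp_smul [GradedRing 𝒮] (hV : LF S 𝒮 V) (e : V →ₗ[S] V) (d : ℤ) (a : S) :
    ∀ v : V, cmp 𝒮 e d (a • v) = a • cmp 𝒮 e d v := by
  induction a using DirectSum.Decomposition.inductionOn 𝒮 with
  | zero => intro v; rw [zero_smul, zero_smul, cmp_zero]
  | homogeneous a =>
    rename_i k
    intro v
    unfold cmp
    have h1 : (∑ᶠ i : ℤ, pT S 𝒮 (i + d) • e (pT S 𝒮 i • (a : S) • v)) =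
        ∑ᶠ i : ℤ, (fun j : ℤ => (a : S) • pT S 𝒮 (j + d) • e (pT S 𝒮 j • v))
          ((Equiv.subRight k) i) := by
      congr 1; ext i
      rw [p_smul a.2, map_smul, p_smul a.2]
      simp only [Equiv.subRight_apply]
      congr 2; congr 1; ring
    rw [h1, finsum_comp_equiv (Equiv.subRight k)
      (f := fun j : ℤ => (a : S) • pT S 𝒮 (j + d) • e (pT S 𝒮 j • v))]
    rw [smul_finsum' _ (cmp_supp hV e d v)]
  | add a b h1 h2 => intro v; rw [add_smul, cmp_add hV, h1, h2, add_smul]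

theorem cmp_p (hV : LF S 𝒮 V) (e : V →ₗ[S] V) (d : ℤ) (j : ℤ) (v : V) :
    cmp 𝒮 e d (pT S 𝒮 j • v) = pT S 𝒮 (j + d) • cmp 𝒮 e d v := by
  unfold cmp
  rw [smul_finsum' _ (cmp_supp hV e d v)]
  congr 1; ext i
  by_cases h : i = j
  · subst h; rw [p_same, p_same]
  · rw [p_ne h, map_zero, smul_zero, p_ne (by omega)]

/-- component as a linear map -/
noncomputable def cmpS [GradedRing 𝒮] (hV : LF S 𝒮 V) (e : V →ₗ[S] V) (d : ℤ) : V →ₗ[S] V where
  toFun := cmp 𝒮 e d
  map_add' := cmp_add hV e d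
  map_smul' a v := cmp_smul hV e d a v

theorem cmpS_apply [GradedRing 𝒮] (hV : LF S 𝒮 V) (e : V →ₗ[S] V) (d : ℤ) (v : V) :
    cmpS hV e d v = cmp 𝒮 e d v := rfl

def toSh (d : ℤ) : V →+ Shift d V := AddMonoidHom.id V
def unSh (d : ℤ) : Shift d V →+ V := AddMonoidHom.id V

theorem toSh_smul (d : ℤ) (t : TT S 𝒮) (v : V) :
    t • toSh d v = toSh d (sg S 𝒮 d t • v) := rfl
theorem unSh_smul (d : ℤ) (t : TT S 𝒮) (v : Shift d V) :
    unSh d (t • v) = sg S 𝒮 d t • unSh d v := rfl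
theorem toSh_smulS (d : ℤ) (t : S) (v : V) :
    t • toSh d v = toSh d (t • v) := rfl

noncomputable def cmpT [GradedRing 𝒮] (hV : LF S 𝒮 V) (e : V →ₗ[S] V) (d : ℤ) :
    V →ₗ[TT S 𝒮] Shift d V :=
  mkLin ((toSh d).comp (cmpS hV e d).toAddMonoidHom)
    (fun a v => by
      change toSh d (cmpS hV e d (a • v)) = a • toSh d (cmpS hV e d v)
      rw [map_smul, toSh_smulS])
    (fun i v => by
      change toSh d (cmpS hV e d (pT S 𝒮 i • v)) = pT S 𝒮 i • toSh d (cmpS hV e d v)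
      rw [toSh_smul, sg_p, cmpS_apply, cmpS_apply, cmp_p hV])

theorem cmpT_apply [GradedRing 𝒮] (hV : LF S 𝒮 V) (e : V →ₗ[S] V) (d : ℤ) (v : V) :
    cmpT hV e d v = toSh d (cmp 𝒮 e d v) := rfl

theorem cmp_id (hV : LF S 𝒮 V) (v : V) : cmp 𝒮 (LinearMap.id : V →ₗ[S] V) 0 v = v := by
  unfold cmp
  simp only [LinearMap.id_apply, add_zero, p_same]
  obtain ⟨s, hs⟩ := hV v
  rw [finsum_eq_sum_of_support_subset (s := s)]
  · exact hs.symm
  · intro i hi
    by_contra hcon
    exact hi (LF.finset hs hcon)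

theorem cmp_sub (hV : LF S 𝒮 V) (e f : V →ₗ[S] V) (d : ℤ) (v : V) :
    cmp 𝒮 (e - f) d v = cmp 𝒮 e d v - cmp 𝒮 f d v := by
  unfold cmp
  rw [← finsum_sub_distrib (cmp_supp hV e d v) (cmp_supp hV f d v)]
  congr 1; ext i
  rw [LinearMap.sub_apply, smul_sub]

theorem cmp_comp (hV : LF S 𝒮 V) (E e : V →ₗ[S] V) (d : ℤ) (v : V)
    (hE : ∀ i v, pT S 𝒮 i • E v = E (pT S 𝒮 i • v)) :
    cmp 𝒮 (E ∘ₗ e) d v = E (cmp 𝒮 e d v) := by
  unfold cmp
  have := (E.toAddMonoidHom).map_finsum (cmp_supp hV e d v)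
  rw [LinearMap.toAddMonoidHom_coe] at this
  rw [this]
  congr 1; ext i
  rw [LinearMap.comp_apply, hE]

theorem cmp_sum (hV : LF S 𝒮 V) {c : ℕ}
    (hc : ∀ i : ℤ, (c : ℤ) < |i| → ∀ v : V, pT S 𝒮 i • v = 0) (e : V →ₗ[S] V) (v : V) :
    e v = ∑ d ∈ Finset.Icc (-(2 * c : ℤ)) (2 * c), cmp 𝒮 e d v := by
  have h0 : ∀ i : ℤ, i ∉ Finset.Icc (-(c : ℤ)) c → ∀ v : V, pT S 𝒮 i • v = 0 := by
    intro i hi v
    apply hc
    rw [Finset.mem_Icc, ← abs_le, not_le] at hi
    exact hi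
  have h1 : ∀ d, cmp 𝒮 e d v =
      ∑ i ∈ Finset.Icc (-(c : ℤ)) c, pT S 𝒮 (i + d) • e (pT S 𝒮 i • v) := by
    intro d
    unfold cmp
    apply finsum_eq_sum_of_support_subset
    intro i hi
    by_contra hcon
    apply hi
    simp only
    rw [h0 i (by simpa using hcon), map_zero, smul_zero]
  simp_rw [h1]
  rw [Finset.sum_comm]
  have h2 : v = ∑ i ∈ Finset.Icc (-(c : ℤ)) c, pT S 𝒮 i • v := hV.sum fun i hi => h0 i hi v
  conv_lhs => rw [h2, map_sum]
  apply Finset.sum_congr rfl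
  intro i hi
  rw [Finset.mem_Icc] at hi
  have h3 : ∑ d ∈ Finset.Icc (-(2 * c : ℤ)) (2 * c), pT S 𝒮 (i + d) • e (pT S 𝒮 i • v) =
      ∑ j ∈ (Finset.Icc (-(2 * c : ℤ)) (2 * c)).map (addLeftEmbedding i),
        pT S 𝒮 j • e (pT S 𝒮 i • v) := by
    rw [Finset.sum_map]; rfl
  rw [h3]
  apply hV.sum
  intro j hj
  apply h0
  intro hj2
  apply hj
  rw [Finset.mem_Icc] at hj2
  rw [Finset.mem_map]
  refine ⟨j - i, ?_, by simp⟩
  rw [Finset.mem_Icc]
  omega

/-- submodules of the shift -/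
def shiftSub (d : ℤ) : Submodule (TT S 𝒮) (Shift d V) ≃o Submodule (TT S 𝒮) V where
  toFun N := { carrier := {v | (show Shift d V from v) ∈ N}
               add_mem' := fun h1 h2 => N.add_mem h1 h2
               zero_mem' := N.zero_mem
               smul_mem' := fun t v hv => by
                obtain ⟨t', rfl⟩ := sg_surj S 𝒮 d t
                exact N.smul_mem t' hv }
  invFun N := { carrier := {v | (show V from v) ∈ N}
                add_mem' := fun h1 h2 => N.add_mem h1 h2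
                zero_mem' := N.zero_mem
                smul_mem' := fun t v hv => N.smul_mem (sg S 𝒮 d t) hv }
  left_inv N := rfl
  right_inv N := rfl
  map_rel_iff' := Iff.rfl

theorem shift_indec (d : ℤ) (h : Indec (TT S 𝒮) V) : Indec (TT S 𝒮) (Shift d V) := by
  refine ⟨h.1, ?_⟩
  intro A B hAB
  have h1 : IsCompl (shiftSub d A) (shiftSub d B) := (shiftSub (V := V) d).isCompl hAB
  rcases h.2 _ _ h1 with h2 | h2
  · left; simpa using h2
  · right; simpa using h2

theorem shift_length (d : ℤ) : Module.length (TT S 𝒮) (Shift d V) = Module.length (TT S 𝒮) V := by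
  apply WithBot.coe_injective
  rw [Module.coe_length, Module.coe_length, Order.krullDim_eq_of_orderIso (shiftSub (V := V) d)]

/-- the component between shifts -/
noncomputable def cmpSh [GradedRing 𝒮] (hV : LF S 𝒮 V) (e : V →ₗ[S] V) (s d : ℤ) :
    Shift s V →ₗ[TT S 𝒮] Shift (s + d) V where
  toFun v := toSh (s + d) (cmpS hV e d (unSh s v))
  map_add' v w := by rw [map_add, map_add, map_add]
  map_smul' t v := by
    have h := (cmpT hV e d).map_smul (sg S 𝒮 s t) (unSh s v)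
    rw [cmpT_apply, cmpT_apply, toSh_smul, sg_comp] at h
    rw [unSh_smul, RingHom.id_apply, toSh_smul]
    exact h

theorem cmpSh_apply [GradedRing 𝒮] (hV : LF S 𝒮 V) (e : V →ₗ[S] V) (s d : ℤ) (v : Shift s V) :
    unSh (s + d) (cmpSh hV e s d v) = cmp 𝒮 e d (unSh s v) := rfl

theorem gg_nilp [GradedRing 𝒮] [IsArtinianRing S] [IsNoetherianRing S] [Module.Finite S V]
    (hV : LF S 𝒮 V) (hI : Indec (TT S 𝒮) V) (e : Module.End S V)
    (he : ¬ Function.Bijective (cmp 𝒮 e 0 : V → V)) : IsNilpotent e := by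
  have ia : IsArtinian S V := inferInstance
  have ino : IsNoetherian S V := inferInstance
  have ia' : IsArtinian (TT S 𝒮) V := isArtinian_of_tower S ia
  have ino' : IsNoetherian (TT S 𝒮) V := isNoetherian_of_tower S ino
  obtain ⟨b, hb⟩ := ENat.ne_top_iff_exists.mp (Module.length_ne_top (R := TT S 𝒮) (M := V))
  obtain ⟨c, hc⟩ := FS_fin hV
  by_contra hnil
  refine no_path b (ModuleCat.of (TT S 𝒮) (Shift 0 V))
    (fun M ψ => ∃ (s : ℤ) (θ : M ≃ₗ[TT S 𝒮] Shift s V), ∀ n : ℕ, ∃ x,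
      ((e ^ n) (unSh s (θ (ψ.hom x)))) ≠ 0) ?_ ?_ ?_
  · refine ⟨_, 𝟙 _, 0, LinearEquiv.refl _ _, ?_⟩
    intro n
    by_contra hcon
    push Not at hcon
    apply hnil
    refine ⟨n, ?_⟩
    ext x
    exact hcon x
  · rintro M ψ ⟨s, θ, hn⟩
    refine ⟨?_, (shift_indec s hI).equiv θ.symm, ?_⟩
    · intro h0
      obtain ⟨x, hx⟩ := hn 0
      apply hx
      rw [h0, LinearMap.zero_apply, map_zero, map_zero, map_zero]
    · rw [θ.length_eq, shift_length, ← hb]
  · rintro M ψ ⟨s, θ, hn⟩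
    have hd : ∃ d, ∀ n : ℕ, ∃ x, ((e ^ n) (cmp 𝒮 e d (unSh s (θ (ψ.hom x))))) ≠ 0 := by
      by_contra hcon
      push Not at hcon
      choose N hN using hcon
      let I := Finset.Icc (-(2 * c : ℤ)) (2 * c)
      obtain ⟨x, hx⟩ := hn (I.sup N + 1)
      apply hx
      rw [pow_succ, Module.End.mul_apply, cmp_sum hV hc e, map_sum]
      apply Finset.sum_eq_zero
      intro d hd
      have h1 : N d ≤ I.sup N := Finset.le_sup hd
      obtain ⟨k, hk⟩ := Nat.exists_eq_add_of_le h1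
      rw [hk, add_comm, pow_add, Module.End.mul_apply, hN, map_zero]
    obtain ⟨d, hd⟩ := hd
    refine ⟨ModuleCat.of (TT S 𝒮) (Shift (s + d) V),
      ModuleCat.ofHom (cmpSh hV e s d ∘ₗ θ.toLinearMap), ?_, s + d, LinearEquiv.refl _ _, ?_⟩
    · intro hbij
      have hbij2 : Function.Bijective (cmp 𝒮 e d : V → V) := by
        have h1 : Function.Bijective (cmpSh hV e s d) := by
          have := hbij.comp θ.symm.bijective
          convert this using 1
          ext x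
          simp
        exact h1
      by_cases h0 : d = 0
      · subst h0; exact he hbij2
      · have := noShift h0 hV (cmpS hV e d) hbij2.1 (fun i v => (cmp_p hV e d i v).symm)
        have hnt := hI.1
        exact not_subsingleton V this
    · exact hd

theorem gg_unit [GradedRing 𝒮] [IsArtinianRing S] [IsNoetherianRing S] [Module.Finite S V]
    (hV : LF S 𝒮 V) (hI : Indec (TT S 𝒮) V) (e : Module.End S V)
    (he : Function.Bijective (cmp 𝒮 e 0 : V → V)) : IsUnit e := by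
  have hu : IsUnit (cmpS hV e 0 : Module.End S V) := by
    rw [Module.End.isUnit_iff]; exact he
  obtain ⟨u, hu⟩ := hu
  have hcomm : ∀ i (v : V), pT S 𝒮 i • (↑u⁻¹ : Module.End S V) v =
      (↑u⁻¹ : Module.End S V) (pT S 𝒮 i • v) := by
    intro i v
    have h1 : ∀ w, (↑u : Module.End S V) ((↑u⁻¹ : Module.End S V) w) = w := by
      intro w
      rw [← Module.End.mul_apply]; simp
    have h2 : Function.Injective (↑u : Module.End S V) := by
      rw [hu]; exact he.1
    apply h2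
    rw [h1, hu, cmpS_apply, cmp_p hV, add_zero, ← cmpS_apply hV, ← hu, h1]
  let h : Module.End S V := 1 - ↑u⁻¹ * e
  have hcmp : ∀ v, cmp 𝒮 h 0 v = 0 := by
    intro v
    have h1 := cmp_sub hV (LinearMap.id : V →ₗ[S] V) ((↑u⁻¹ : Module.End S V) ∘ₗ e) 0 v
    have h2 : cmp 𝒮 h 0 v = cmp 𝒮 (LinearMap.id - (↑u⁻¹ : Module.End S V) ∘ₗ e) 0 v := rfl
    rw [h2, h1, cmp_id hV, cmp_comp hV _ _ _ _ hcomm, ← cmpS_apply hV, ← hu,
      ← Module.End.mul_apply]
    simp
  have hn : IsNilpotent h := by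
    apply gg_nilp hV hI
    intro hb
    have hnt := hI.1
    obtain ⟨v, hv⟩ := exists_ne (0 : V)
    apply hv
    apply hb.1
    rw [hcmp, hcmp]
  have h1 : IsUnit (1 - h) := hn.isUnit_one_sub
  have h2 : e = ↑u * (1 - h) := by
    simp only [h, sub_sub_cancel, ← mul_assoc]
    simp
  rw [h2]
  exact u.isUnit.mul h1

theorem gg_indec [GradedRing 𝒮] [IsArtinianRing S] [IsNoetherianRing S] [Module.Finite S V]
    (hV : LF S 𝒮 V) (hI : Indec (TT S 𝒮) V) : Indec S V := by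
  refine ⟨hI.1, ?_⟩
  intro A B hAB
  let e : Module.End S V := A.subtype ∘ₗ A.projectionOnto B hAB
  by_cases h : Function.Bijective (cmp 𝒮 e 0 : V → V)
  · right
    have h1 := gg_unit hV hI e h
    rw [Module.End.isUnit_iff] at h1
    rw [eq_bot_iff]
    intro x hx
    rw [Submodule.mem_bot]
    apply h1.1
    rw [map_zero]
    change ((A.projectionOnto B hAB x : A) : V) = 0
    rw [Submodule.projectionOnto_apply_right hAB ⟨x, hx⟩]; rfl
  · left
    obtain ⟨n, hn⟩ := gg_nilp hV hI e h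
    rw [eq_bot_iff]
    intro x hx
    rw [Submodule.mem_bot]
    have h1 : e x = x := by
      change ((A.projectionOnto B hAB x : A) : V) = x
      rw [Submodule.projectionOnto_apply_left hAB ⟨x, hx⟩]
    have h2 : ∀ k : ℕ, (e ^ k) x = x := by
      intro k
      induction k with
      | zero => rfl
      | succ k ih => rw [pow_succ, Module.End.mul_apply, h1, ih]
    rw [← h2 n, hn]; rfl

end gg

end X233.GP
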