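import Mathlib

open CategoryTheory

namespace X233.GP

universe u v w

/-- A module is indecomposable if it is nonzero and is not the direct sum of two nonzero
submodules. -/
def Indec (R : Type*) (M : Type*) [Ring R] [AddCommGroup M] [Module R M] : Prop :=
  Nontrivial M ∧ ∀ A B : Submodule R M, IsCompl A B → A = ⊥ ∨ B = ⊥

section gen

variable {R : Type*} [Ring R]

theorem Indec.equiv {M N : Type*} [AddCommGroup M] [AddCommGroup N] [Module R M] [Module R N]
    (h : Indec R M) (e : M ≃ₗ[R] N) : Indec R N := by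
  refine ⟨?_, ?_⟩
  · have := h.1
    exact e.symm.toEquiv.nontrivial
  · intro A B hAB
    let o := Submodule.orderIsoMapComap e.symm
    have h1 : IsCompl (o A) (o B) := o.isCompl hAB
    rcases h.2 _ _ h1 with h2 | h2
    · left; simpa using h2
    · right; simpa using h2

theorem Indec.unit_or_nilp {M : Type*} [AddCommGroup M] [Module R M] [IsArtinian R M]
    [IsNoetherian R M] (h : Indec R M) (f : Module.End R M) : IsUnit f ∨ IsNilpotent f := by
  obtain ⟨n, hn⟩ := Filter.eventually_atTop.mp f.eventually_isCompl_ker_pow_range_pow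
  have h1 := hn (n + 1) (Nat.le_succ n)
  rcases h.2 _ _ h1 with h2 | h2
  · left
    have h3 : LinearMap.range (f ^ (n + 1)) = ⊤ := by
      have := h1.sup_eq_top
      rwa [h2, bot_sup_eq] at this
    have h4 : IsUnit (f ^ (n + 1)) := by
      rw [Module.End.isUnit_iff]
      exact ⟨LinearMap.ker_eq_bot.mp h2, LinearMap.range_eq_top.mp h3⟩
    exact (isUnit_pow_iff (Nat.succ_ne_zero n)).mp h4
  · right
    exact ⟨n + 1, LinearMap.range_eq_bot.mp h2⟩

theorem Indec.add_unit {M : Type*} [AddCommGroup M] [Module R M] [IsArtinian R M]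
    [IsNoetherian R M] (h : Indec R M) (f g : Module.End R M) (hfg : IsUnit (f + g)) :
    IsUnit f ∨ IsUnit g := by
  obtain ⟨u, hu⟩ := hfg
  rcases h.unit_or_nilp (↑u⁻¹ * f) with h1 | h1
  · left
    have : f = ↑u * (↑u⁻¹ * f) := by rw [← mul_assoc]; simp
    rw [this]
    exact u.isUnit.mul h1
  · right
    have h2 : ↑u⁻¹ * g = 1 - ↑u⁻¹ * f := by
      have : ↑u⁻¹ * (f + g) = 1 := by rw [← hu]; simp
      rw [mul_add] at this
      rw [← this]; abel
    have h3 : IsUnit (↑u⁻¹ * g) := by
      rw [h2]; exact h1.isUnit_one_sub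
    have : g = ↑u * (↑u⁻¹ * g) := by rw [← mul_assoc]; simp
    rw [this]
    exact u.isUnit.mul h3

/-- `P` is (isomorphic to) a direct summand of `M`. -/
def SummandOf (R : Type*) [Ring R] (P M : Type*) [AddCommGroup P] [AddCommGroup M] [Module R P]
    [Module R M] : Prop :=
  ∃ (i : P →ₗ[R] M) (r : M →ₗ[R] P), r ∘ₗ i = LinearMap.id

theorem SummandOf.trans {P M N : Type*} [AddCommGroup P] [AddCommGroup M] [AddCommGroup N]
    [Module R P] [Module R M] [Module R N] (h1 : SummandOf R P M) (h2 : SummandOf R M N) :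
    SummandOf R P N := by
  obtain ⟨i, r, h⟩ := h1
  obtain ⟨i', r', h'⟩ := h2
  refine ⟨i' ∘ₗ i, r ∘ₗ r', ?_⟩
  ext x
  have a1 := LinearMap.congr_fun h' (i x)
  have a2 := LinearMap.congr_fun h x
  simp only [LinearMap.comp_apply, LinearMap.id_apply] at a1 a2 ⊢
  rw [a1, a2]

/-- unit composite gives a summand -/
theorem SummandOf.of_unit {P M : Type*} [AddCommGroup P] [AddCommGroup M] [Module R P]
    [Module R M] (i : P →ₗ[R] M) (r : M →ₗ[R] P) (h : IsUnit (r ∘ₗ i : Module.End R P)) :
    SummandOf R P M := by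
  obtain ⟨u, hu⟩ := h
  refine ⟨i, (↑u⁻¹ : Module.End R P) ∘ₗ r, ?_⟩
  have : (↑u⁻¹ : Module.End R P) * ↑u = 1 := by simp
  rw [hu] at this
  exact this

/-- A nonzero summand of an indecomposable module is everything. -/
theorem Indec.bij_of_summand {P M : Type*} [AddCommGroup P] [AddCommGroup M] [Module R P]
    [Module R M] (hP : Nontrivial P) (hM : Indec R M) (i : P →ₗ[R] M) (r : M →ₗ[R] P)
    (h : r ∘ₗ i = LinearMap.id) : Function.Bijective i := by
  have hi : Function.LeftInverse r i := fun x => LinearMap.congr_fun h x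
  refine ⟨hi.injective, ?_⟩
  have hc : IsCompl (LinearMap.range i) (LinearMap.ker r) := by
    constructor
    · rw [Submodule.disjoint_def]
      rintro x ⟨y, rfl⟩ hy
      rw [LinearMap.mem_ker, hi y] at hy
      rw [hy, map_zero]
    · rw [codisjoint_iff, eq_top_iff]
      intro x _
      rw [Submodule.mem_sup]
      refine ⟨i (r x), ⟨r x, rfl⟩, x - i (r x), ?_, by abel⟩
      rw [LinearMap.mem_ker, map_sub, hi, sub_self]
  rcases hM.2 _ _ hc with h1 | h1
  · exfalso
    obtain ⟨x, hx⟩ := exists_ne (0 : P)
    have : i x ∈ (⊥ : Submodule R M) := h1 ▸ ⟨x, rfl⟩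
    rw [Submodule.mem_bot] at this
    apply hx
    rw [← hi x, this, map_zero]
  · have h2 := hc.sup_eq_top
    rw [h1, sup_bot_eq] at h2
    exact LinearMap.range_eq_top.mp h2

/-- Krull-Schmidt for two summands -/
theorem Indec.summand_prod {P M N : Type*} [AddCommGroup P] [AddCommGroup M] [AddCommGroup N]
    [Module R P] [Module R M] [Module R N] [IsArtinian R P] [IsNoetherian R P]
    (hP : Indec R P) (h : SummandOf R P (M × N)) : SummandOf R P M ∨ SummandOf R P N := by
  obtain ⟨i, r, h⟩ := h
  have h1 : (r ∘ₗ LinearMap.inl R M N) ∘ₗ (LinearMap.fst R M N ∘ₗ i) +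
      (r ∘ₗ LinearMap.inr R M N) ∘ₗ (LinearMap.snd R M N ∘ₗ i) = LinearMap.id := by
    rw [← h]
    ext x
    simp only [LinearMap.add_apply, LinearMap.comp_apply, ← map_add]
    congr 1
    simp
  have h2 : IsUnit (((r ∘ₗ LinearMap.inl R M N) ∘ₗ (LinearMap.fst R M N ∘ₗ i) : Module.End R P) +
      ((r ∘ₗ LinearMap.inr R M N) ∘ₗ (LinearMap.snd R M N ∘ₗ i) : Module.End R P)) := by
    rw [h1]; exact isUnit_one
  rcases hP.add_unit _ _ h2 with h3 | h3
  · left; exact .of_unit _ _ h3
  · right; exact .of_unit _ _ h3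

theorem Indec.summand_pi {P M : Type*} [AddCommGroup P] [AddCommGroup M]
    [Module R P] [Module R M] [IsArtinian R P] [IsNoetherian R P]
    (hP : Indec R P) (n : ℕ) (h : SummandOf R P (Fin n → M)) : SummandOf R P M := by
  induction n with
  | zero =>
    exfalso
    obtain ⟨i, r, h⟩ := h
    obtain ⟨x, hx⟩ := @exists_ne _ hP.1 (0 : P)
    apply hx
    have := LinearMap.congr_fun h x
    simp only [LinearMap.comp_apply, LinearMap.id_apply] at this
    rw [← this, Subsingleton.elim (i x) 0, map_zero]
  | succ n ih =>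
    have e : (Fin (n + 1) → M) ≃ₗ[R] (M × (Fin n → M)) :=
      (Fin.consLinearEquiv R (fun _ : Fin (n + 1) => M)).symm
    have h' : SummandOf R P (M × (Fin n → M)) :=
      h.trans ⟨e.toLinearMap, e.symm.toLinearMap, by ext x; simp⟩
    rcases hP.summand_prod h' with h1 | h1
    · exact h1
    · exact ih h1

/-- The summand decomposition induction. -/
theorem decomp_induction (Q : ∀ (M : Type u) [AddCommGroup M] [Module R M], Prop)
    (h0 : ∀ (M : Type u) [AddCommGroup M] [Module R M], Subsingleton M → Q M)
    (h1 : ∀ (M : Type u) [AddCommGroup M] [Module R M], Indec R M → Q M)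
    (h2 : ∀ (M : Type u) [AddCommGroup M] [Module R M] (A B : Submodule R M), IsCompl A B →
      Q A → Q B → Q M)
    (M : Type u) [AddCommGroup M] [Module R M] [IsArtinian R M] [IsNoetherian R M] : Q M := by
  have key : ∀ (n : ℕ) (M : Type u) [AddCommGroup M] [Module R M] [IsArtinian R M]
      [IsNoetherian R M], Module.length R M = n → Q M := by
    intro n
    induction n using Nat.strong_induction_on with
    | _ n ih =>
      intro M _ _ _ _ hn
      by_cases hM : Subsingleton M
      · exact h0 M hM
      by_cases hI : Indec R M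
      · exact h1 M hI
      have hM' : Nontrivial M := not_subsingleton_iff_nontrivial.mp hM
      unfold Indec at hI
      push Not at hI
      obtain ⟨A, B, hAB, hA, hB⟩ := hI hM'
      have hA' : A ≠ ⊤ := by
        rintro rfl
        exact hB (by simpa using hAB.inf_eq_bot)
      have hB' : B ≠ ⊤ := by
        rintro rfl
        exact hA (by simpa using hAB.inf_eq_bot)
      have lA := Submodule.length_lt hA'
      have lB := Submodule.length_lt hB'
      obtain ⟨a, ha⟩ := ENat.ne_top_iff_exists.mp (Module.length_ne_top (R := R) (M := A))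
      obtain ⟨b, hb⟩ := ENat.ne_top_iff_exists.mp (Module.length_ne_top (R := R) (M := B))
      rw [← ha, hn] at lA
      rw [← hb, hn] at lB
      exact h2 M A B hAB (ih a (by exact_mod_cast lA) A ha.symm)
        (ih b (by exact_mod_cast lB) B hb.symm)
  obtain ⟨a, ha⟩ := ENat.ne_top_iff_exists.mp (Module.length_ne_top (R := R) (M := M))
  exact key a M ha.symm

/-- Every nonzero module of finite length has an indecomposable summand. -/
theorem exists_indec_summand (M : Type u) [AddCommGroup M] [Module R M] [IsArtinian R M]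
    [IsNoetherian R M] (hM : Nontrivial M) :
    ∃ A : Submodule R M, Indec R A ∧ SummandOf R A M := by
  have key := decomp_induction (R := R)
    (fun (M : Type u) _ _ => Nontrivial M → ∃ A : Submodule R M, Indec R A ∧ SummandOf R A M)
    (fun M _ _ hs hn => absurd hs (not_subsingleton_iff_nontrivial.mpr hn)) ?_ ?_ M
  · exact key hM
  · intro M _ _ hI _
    exact ⟨⊤, hI.equiv Submodule.topEquiv.symm,
      ⟨Submodule.topEquiv.toLinearMap, Submodule.topEquiv.symm.toLinearMap, by ext x; simp⟩⟩
  · intro M _ _ A B hAB hA hB hM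
    have hcase : Nontrivial A ∨ Nontrivial B := by
      by_contra hcon
      rw [not_or, Submodule.nontrivial_iff_ne_bot, Submodule.nontrivial_iff_ne_bot, not_not,
        not_not] at hcon
      have h1 := hAB.sup_eq_top
      rw [hcon.1, hcon.2] at h1
      obtain ⟨x, hx⟩ := exists_ne (0 : M)
      have : x ∈ (⊥ ⊔ ⊥ : Submodule R M) := h1 ▸ Submodule.mem_top
      simp at this
      exact hx this
    have gen : ∀ (A B : Submodule R M), IsCompl A B →
        (∃ C : Submodule R A, Indec R C ∧ SummandOf R C A) →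
        ∃ A : Submodule R M, Indec R A ∧ SummandOf R A M := by
      intro A B hAB ⟨C, hC, hs⟩
      have e : C ≃ₗ[R] (C.map A.subtype) :=
        Submodule.equivMapOfInjective A.subtype (Submodule.subtype_injective A) C
      refine ⟨C.map A.subtype, hC.equiv e, ?_⟩
      have s1 : SummandOf R (C.map A.subtype) C :=
        ⟨e.symm.toLinearMap, e.toLinearMap, by ext x; simp⟩
      have s2 : SummandOf R A M :=
        ⟨A.subtype, A.projectionOnto B hAB, by
          ext x; simp⟩
      exact (s1.trans hs).trans s2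
    rcases hcase with h | h
    · exact gen A B hAB (hA h)
    · exact gen B A hAB.symm (hB h)

/-- chain of non-isomorphisms: Harada-Sai -/
theorem harada_sai {T : Type u} [Ring T] (b : ℕ) (F : ℕ ⥤ ModuleCat.{u} T)
    (hI : ∀ n, Indec T (F.obj n)) (hl : ∀ n, Module.length T (F.obj n) ≤ b)
    (hg : ∀ n, ¬ Function.Bijective (F.map (homOfLE (Nat.le_succ n))).hom) :
    ∃ n, (F.map (homOfLE (Nat.zero_le n))).hom = 0 := by
  have key : ∀ k i : ℕ, ∃ j, ∃ h : i ≤ j, (F.map (homOfLE h)).hom = 0 ∨
      Module.length T (LinearMap.range (F.map (homOfLE h)).hom) + k ≤ b := by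
    intro k
    induction k with
    | zero =>
      intro i
      refine ⟨i, le_rfl, Or.inr ?_⟩
      refine le_trans ?_ (hl i)
      simp only [Nat.cast_zero, add_zero]
      exact Module.length_le_of_injective (Submodule.subtype _) (Submodule.subtype_injective _)
    | succ k ih =>
      intro i
      obtain ⟨j, hij, h1⟩ := ih i
      obtain ⟨l, hjl, h2⟩ := ih (j + 1)
      have hjj : j ≤ j + 1 := Nat.le_succ j
      have hil : i ≤ l := hij.trans (hjj.trans hjl)
      refine ⟨l, hil, ?_⟩
      set f := (F.map (homOfLE hij)).hom with hf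
      set g := (F.map (homOfLE hjj)).hom with hgdef
      set h := (F.map (homOfLE hjl)).hom with hh
      have hcomp : (F.map (homOfLE hil)).hom = h ∘ₗ g ∘ₗ f := by
        rw [hh, hgdef, hf, ← ModuleCat.hom_comp, ← ModuleCat.hom_comp, ← F.map_comp,
          ← F.map_comp]
        congr 1
      rw [hcomp]
      by_cases hz : h ∘ₗ g ∘ₗ f = 0
      · exact Or.inl hz
      right
      have hf0 : f ≠ 0 := by
        intro h0; apply hz; rw [h0]; simp
      have hh0 : h ≠ 0 := by
        intro h0; apply hz; rw [h0]; simp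
      have h1' := h1.resolve_left hf0
      have h2' := h2.resolve_left hh0
      by_contra hcon
      push Not at hcon
      -- finite lengths
      have finM : ∀ (n : ℕ), Module.length T (F.obj n) ≠ ⊤ := fun n => ne_top_of_le_ne_top
        (ENat.natCast_ne_top b) (hl n)
      set L := Module.length T (LinearMap.range (h ∘ₗ g ∘ₗ f)) with hL
      set Lf := Module.length T (LinearMap.range f) with hLf
      set Lh := Module.length T (LinearMap.range h) with hLh
      -- surjection range f → range hgf
      have hsurj : ∃ q : LinearMap.range f →ₗ[T] LinearMap.range (h ∘ₗ g ∘ₗ f),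
          Function.Surjective q ∧ ∀ x, ((q x : LinearMap.range (h ∘ₗ g ∘ₗ f)) : F.obj l) =
            h (g (x : F.obj j)) := by
        refine ⟨((h ∘ₗ g) ∘ₗ (LinearMap.range f).subtype).codRestrict _ ?_, ?_, ?_⟩
        · rintro ⟨x, ⟨y, rfl⟩⟩
          exact ⟨y, rfl⟩
        · rintro ⟨x, ⟨y, rfl⟩⟩
          exact ⟨⟨f y, ⟨y, rfl⟩⟩, rfl⟩
        · intro x; rfl
      obtain ⟨q, hq, hq'⟩ := hsurj
      have e1 : Lf = Module.length T (LinearMap.ker q) + L :=
        Module.length_eq_add_of_exact (LinearMap.ker q).subtype q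
          (Submodule.subtype_injective _) hq (LinearMap.exact_subtype_ker_map q)
      have hle : LinearMap.range (h ∘ₗ g ∘ₗ f) ≤ LinearMap.range h := by
        rintro x ⟨y, rfl⟩
        exact ⟨_, rfl⟩
      -- numbers
      have fL : L ≠ ⊤ := by
        intro h0
        rw [h0] at e1
        rw [e1] at h1'
        simp at h1'
      have fLh : Lh ≠ ⊤ := by
        intro h0
        rw [h0] at h2'
        simp at h2'
      have fLf : Lf ≠ ⊤ := by
        intro h0
        rw [h0] at h1'
        simp at h1'
      have fK : Module.length T (LinearMap.ker q) ≠ ⊤ := by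
        intro h0
        rw [h0] at e1
        simp at e1
        exact fLf e1
      obtain ⟨a, ha⟩ := ENat.ne_top_iff_exists.mp fL
      obtain ⟨c, hc⟩ := ENat.ne_top_iff_exists.mp fLh
      obtain ⟨d, hd⟩ := ENat.ne_top_iff_exists.mp fLf
      obtain ⟨e, he⟩ := ENat.ne_top_iff_exists.mp fK
      rw [← hd, ← he, ← ha] at e1
      rw [← hd] at h1'
      rw [← hc] at h2'
      rw [← ha] at hcon
      norm_cast at e1 h1' h2' hcon
      have hLle : L ≤ Lh := Module.length_le_of_injective (Submodule.inclusion hle)
        (Submodule.inclusion_injective hle)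
      rw [← ha, ← hc] at hLle
      norm_cast at hLle
      have he0 : e = 0 := by omega
      have hac : a = c := by omega
      have hker : ∀ x ∈ LinearMap.range f, h (g x) = 0 → x = 0 := by
        intro x hx h0
        have hs : Subsingleton (LinearMap.ker q) := by
          rw [← Module.length_eq_zero_iff (R := T), ← he, he0]; rfl
        have : (⟨⟨x, hx⟩, by
          rw [LinearMap.mem_ker]; apply Subtype.ext; rw [hq']; exact h0⟩ : LinearMap.ker q) =
            ⟨0, by simp⟩ := Subsingleton.elim _ _
        have := congrArg (fun z : LinearMap.ker q => ((z : LinearMap.range f) : F.obj j)) this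
        simpa using this
      have hrange : LinearMap.range (h ∘ₗ g ∘ₗ f) = LinearMap.range h := by
        have fin1 : IsFiniteLength T (LinearMap.range h) := Module.length_ne_top_iff.mp fLh
        obtain ⟨_, _⟩ := isFiniteLength_iff_isNoetherian_isArtinian.mp fin1
        by_contra hne
        have hN : (LinearMap.range (h ∘ₗ g ∘ₗ f)).submoduleOf (LinearMap.range h) ≠ ⊤ := by
          intro h0
          apply hne
          apply le_antisymm hle
          intro x hx
          have : (⟨x, hx⟩ : LinearMap.range h) ∈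
            (LinearMap.range (h ∘ₗ g ∘ₗ f)).submoduleOf (LinearMap.range h) := h0 ▸ trivial
          simpa [Submodule.submoduleOf] using this
        have := Submodule.length_lt hN
        rw [(Submodule.submoduleOfEquivOfLe hle).length_eq, ← hL, ← hLh, ← ha, ← hc] at this
        norm_cast at this
        omega
      -- first complement
      have hc1 : IsCompl (LinearMap.range f) (LinearMap.ker (h ∘ₗ g)) := by
        constructor
        · rw [Submodule.disjoint_def]
          intro x hx hx'
          exact hker x hx hx'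
        · rw [codisjoint_iff, eq_top_iff]
          intro x _
          have : h (g x) ∈ LinearMap.range (h ∘ₗ g ∘ₗ f) := hrange ▸ ⟨g x, rfl⟩
          obtain ⟨y, hy⟩ := this
          rw [Submodule.mem_sup]
          refine ⟨f y, ⟨y, rfl⟩, x - f y, ?_, by abel⟩
          rw [LinearMap.mem_ker, map_sub, sub_eq_zero]
          exact hy.symm
      have hk1 : LinearMap.ker (h ∘ₗ g) = ⊥ := by
        rcases (hI j).2 _ _ hc1 with h3 | h3
        · exact absurd (LinearMap.range_eq_bot.mp h3) hf0
        · exact h3
      have hginj : Function.Injective g := by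
        rw [← LinearMap.ker_eq_bot, eq_bot_iff]
        intro x hx
        rw [LinearMap.mem_ker] at hx
        rw [← hk1, LinearMap.mem_ker, LinearMap.comp_apply, hx, map_zero]
      have hc2 : IsCompl (LinearMap.range (g ∘ₗ f)) (LinearMap.ker h) := by
        constructor
        · rw [Submodule.disjoint_def]
          rintro x ⟨y, rfl⟩ hx'
          have : f y = 0 := hker (f y) ⟨y, rfl⟩ hx'
          rw [LinearMap.comp_apply, this, map_zero]
        · rw [codisjoint_iff, eq_top_iff]
          intro x _
          have : h x ∈ LinearMap.range (h ∘ₗ g ∘ₗ f) := hrange ▸ ⟨x, rfl⟩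
          obtain ⟨y, hy⟩ := this
          rw [Submodule.mem_sup]
          refine ⟨g (f y), ⟨y, rfl⟩, x - g (f y), ?_, by abel⟩
          rw [LinearMap.mem_ker, map_sub, sub_eq_zero]
          exact hy.symm
      have hgsurj : Function.Surjective g := by
        rcases (hI (j + 1)).2 _ _ hc2 with h3 | h3
        · exfalso
          apply hz
          have := LinearMap.range_eq_bot.mp h3
          rw [this]; simp
        · have h4 := hc2.sup_eq_top
          rw [h3, sup_bot_eq] at h4
          intro x
          obtain ⟨y, hy⟩ := LinearMap.range_eq_top.mp h4 x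
          exact ⟨f y, hy⟩
      exact hg j ⟨hginj, hgsurj⟩
  obtain ⟨n, hn, h⟩ := key (b + 1) 0
  rcases h with h | h
  · exact ⟨n, h⟩
  · exfalso
    have : ((b + 1 : ℕ) : ℕ∞) ≤ b := le_trans le_add_self h
    norm_cast at this
    omega

/-- no infinite path of non-isomorphisms with nonzero composites -/
theorem no_path {T : Type u} [Ring T] (b : ℕ) (M₀ : ModuleCat.{u} T)
    (Good : ∀ M : ModuleCat.{u} T, (M₀ ⟶ M) → Prop)
    (h0 : ∃ M ψ, Good M ψ)
    (h1 : ∀ M ψ, Good M ψ → ψ.hom ≠ 0 ∧ Indec T M ∧ Module.length T M ≤ b)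
    (h2 : ∀ M ψ, Good M ψ → ∃ (M' : ModuleCat.{u} T) (g : M ⟶ M'),
      ¬ Function.Bijective g.hom ∧ Good M' (ψ ≫ g)) : False := by
  classical
  let St := {p : Σ M : ModuleCat.{u} T, (M₀ ⟶ M) // Good p.1 p.2}
  have hstep : ∀ s : St, ∃ s' : St, ∃ g : s.1.1 ⟶ s'.1.1,
      ¬ Function.Bijective g.hom ∧ s'.1.2 = s.1.2 ≫ g := by
    rintro ⟨⟨M, ψ⟩, hs⟩
    obtain ⟨M', g, hg, hG⟩ := h2 M ψ hs
    exact ⟨⟨⟨M', ψ ≫ g⟩, hG⟩, g, hg, rfl⟩
  choose nxt g hg hcomp using hstep
  obtain ⟨M, ψ, hG⟩ := h0
  let s : ℕ → St := fun n => Nat.rec ⟨⟨M, ψ⟩, hG⟩ (fun _ s => nxt s) n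
  have hs : ∀ n, s (n + 1) = nxt (s n) := fun n => rfl
  let F : ℕ ⥤ ModuleCat.{u} T := Functor.ofSequence (X := fun n => (s n).1.1) (fun n => g (s n))
  have hF : ∀ n, F.map (homOfLE (Nat.le_succ n)) = g (s n) := fun n =>
    Functor.ofSequence_map_homOfLE_succ _ n
  have hF' : ∀ n (x : F.obj n), (F.map (homOfLE (Nat.le_succ n))).hom x = (g (s n)).hom x :=
    fun n x => by rw [hF n]; rfl
  obtain ⟨n, hn⟩ := harada_sai b F (fun n => (h1 _ _ (s n).2).2.1) (fun n => (h1 _ _ (s n).2).2.2)
    (fun n => by rw [hF]; exact hg (s n))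
  have hall : ∀ n (x : M₀), (s n).1.2.hom x =
      (F.map (homOfLE (Nat.zero_le n))).hom ((s 0).1.2.hom x) := by
    intro n
    induction n with
    | zero =>
      intro x
      have : F.map (homOfLE (Nat.zero_le 0)) = 𝟙 _ := F.map_id _
      rw [this]; rfl
    | succ n ih =>
      intro x
      have e : F.map (homOfLE (Nat.zero_le (n + 1))) =
          F.map (homOfLE (Nat.zero_le n)) ≫ F.map (homOfLE (Nat.le_succ n)) := by
        rw [← F.map_comp]; congr 1
      have c1 : (s (n + 1)).1.2.hom x = (g (s n)).hom ((s n).1.2.hom x) := by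
        change (nxt (s n)).1.2.hom x = _
        rw [hcomp (s n)]; rfl
      have c2 := (hF' n ((s n).1.2.hom x)).symm
      have c3 := congrArg (F.map (homOfLE (Nat.le_succ n))).hom (ih x)
      have c4 : (F.map (homOfLE (Nat.zero_le (n + 1)))).hom ((s 0).1.2.hom x) =
        (F.map (homOfLE (Nat.le_succ n))).hom
              ((F.map (homOfLE (Nat.zero_le n))).hom ((s 0).1.2.hom x)) := by rw [e]; rfl
      exact c1.trans (c2.trans (c3.trans c4.symm))
  apply (h1 _ _ (s n).2).1
  ext x
  rw [hall n x, hn]
  rfl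

end gen

end X233.GP
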