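import Pool.Agent.X233.GP.TRing

open DirectSum

namespace X233.GP

universe u

set_option linter.unusedSectionVars false

section Hat

variable {S : Type u} [Ring S] (𝒮 : ℤ → AddSubgroup S)

/-- Laurent polynomials with coefficients in `Y`, with the action twisted by the degree -/
def Hat (_ : ℤ → AddSubgroup S) (Y : Type u) [AddCommGroup Y] : Type u := ℤ →₀ Y

variable (Y : Type u) [AddCommGroup Y] [Module S Y]

noncomputable instance : AddCommGroup (Hat 𝒮 Y) := inferInstanceAs (AddCommGroup (ℤ →₀ Y))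

noncomputable def sgl (i : ℤ) : Y →+ Hat 𝒮 Y := Finsupp.singleAddHom i

variable {Y} in
theorem hat_ext {M : Type*} [AddCommMonoid M] {f g : Hat 𝒮 Y →+ M}
    (h : ∀ i y, f (sgl 𝒮 Y i y) = g (sgl 𝒮 Y i y)) : f = g :=
  Finsupp.addHom_ext h

variable {Y} in
theorem end_ext {f g : AddMonoid.End (Hat 𝒮 Y)}
    (h : ∀ i y, f (sgl 𝒮 Y i y) = g (sgl 𝒮 Y i y)) : f = g :=
  Finsupp.addHom_ext h

noncomputable def hsh (k : ℤ) (a : S) : AddMonoid.End (Hat 𝒮 Y) :=
  Finsupp.liftAddHom (fun i => (sgl 𝒮 Y (i + k)).comp (DistribSMul.toAddMonoidHom Y a))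

theorem hsh_sgl (k : ℤ) (a : S) (i : ℤ) (y : Y) :
    hsh 𝒮 Y k a (sgl 𝒮 Y i y) = sgl 𝒮 Y (i + k) (a • y) :=
  Finsupp.liftAddHom_apply_single _ _ _

noncomputable def pH (i : ℤ) : AddMonoid.End (Hat 𝒮 Y) :=
  (sgl 𝒮 Y i).comp (Finsupp.applyAddHom i)

theorem pH_apply (i : ℤ) (v : Hat 𝒮 Y) : pH 𝒮 Y i v = sgl 𝒮 Y i ((show ℤ →₀ Y from v) i) := rfl

theorem pH_sgl (i j : ℤ) (y : Y) :
    pH 𝒮 Y i (sgl 𝒮 Y j y) = if i = j then sgl 𝒮 Y j y else 0 := by
  rw [pH_apply]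
  by_cases h : i = j
  · subst h
    rw [if_pos rfl]
    congr 1
    exact Finsupp.single_eq_same
  · rw [if_neg h]
    have : (show ℤ →₀ Y from sgl 𝒮 Y j y) i = 0 := Finsupp.single_eq_of_ne h
    rw [this, map_zero]

noncomputable def hk (k : ℤ) : 𝒮 k →+ AddMonoid.End (Hat 𝒮 Y) where
  toFun a := hsh 𝒮 Y k a
  map_zero' := by
    apply end_ext; intro i y
    rw [hsh_sgl]
    change sgl 𝒮 Y (i + k) ((0 : S) • y) = 0
    rw [zero_smul, map_zero]
  map_add' a b := by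
    apply end_ext; intro i y
    change _ = hsh 𝒮 Y k a (sgl 𝒮 Y i y) + hsh 𝒮 Y k b (sgl 𝒮 Y i y)
    rw [hsh_sgl, hsh_sgl, hsh_sgl]
    change sgl 𝒮 Y (i + k) (((a : S) + (b : S)) • y) = _
    rw [add_smul, map_add]

variable [GradedRing 𝒮]

noncomputable def rH0 : (⨁ i, 𝒮 i) →+* AddMonoid.End (Hat 𝒮 Y) :=
  DirectSum.toSemiring (hk 𝒮 Y)
    (by
      apply end_ext; intro i y
      change hsh 𝒮 Y 0 (1 : S) _ = sgl 𝒮 Y i y
      rw [hsh_sgl, one_smul, add_zero])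
    (by
      intro i j a b
      apply end_ext; intro m y
      change hsh 𝒮 Y (i + j) ((a : S) * (b : S)) _ = hsh 𝒮 Y i a (hsh 𝒮 Y j b _)
      rw [hsh_sgl, hsh_sgl, hsh_sgl, mul_smul]
      congr 2; ring)

noncomputable def rH : S →+* AddMonoid.End (Hat 𝒮 Y) :=
  (rH0 𝒮 Y).comp (DirectSum.decomposeRingEquiv 𝒮).toRingHom

theorem rH_apply {k : ℤ} {a : S} (ha : a ∈ 𝒮 k) : rH 𝒮 Y a = hsh 𝒮 Y k a := by
  change rH0 𝒮 Y (DirectSum.decompose 𝒮 a) = _
  rw [DirectSum.decompose_of_mem 𝒮 ha]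
  unfold rH0
  rw [DirectSum.toSemiring_of]
  rfl

noncomputable def tH : TT S 𝒮 →+* AddMonoid.End (Hat 𝒮 Y) :=
  liftT S 𝒮 (rH 𝒮 Y) (pH 𝒮 Y)
    (by
      intro i
      apply end_ext; intro m y
      change pH 𝒮 Y i (pH 𝒮 Y i _) = _
      rw [pH_sgl]
      split_ifs with h
      · rw [pH_sgl, if_pos h]
      · rw [map_zero])
    (by
      intro i j h
      apply end_ext; intro m y
      change pH 𝒮 Y i (pH 𝒮 Y j _) = 0
      rw [pH_sgl]
      split_ifs with h2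
      · rw [pH_sgl, if_neg (h2 ▸ h)]
      · rw [map_zero])
    (by
      intro i j a ha
      rw [rH_apply 𝒮 Y ha]
      apply end_ext; intro m y
      change pH 𝒮 Y (i + j) (hsh 𝒮 Y j a _) = hsh 𝒮 Y j a (pH 𝒮 Y i _)
      rw [hsh_sgl, pH_sgl, pH_sgl]
      by_cases h : i = m
      · rw [if_pos h, if_pos (by rw [h]), hsh_sgl]
      · rw [if_neg h, if_neg (by omega), map_zero])

noncomputable instance : Module (TT S 𝒮) (Hat 𝒮 Y) := Module.compHom (Hat 𝒮 Y) (tH 𝒮 Y)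
noncomputable instance : Module S (Hat 𝒮 Y) := Module.compHom (Hat 𝒮 Y) (rT S 𝒮)
instance : IsScalarTower S (TT S 𝒮) (Hat 𝒮 Y) := ⟨fun a t v => by
  change (rT S 𝒮 a * t) • v = rT S 𝒮 a • (t • v)
  rw [mul_smul]⟩

variable {Y}

theorem hat_smul {k : ℤ} {a : S} (ha : a ∈ 𝒮 k) (i : ℤ) (y : Y) :
    a • sgl 𝒮 Y i y = sgl 𝒮 Y (i + k) (a • y) := by
  change tH 𝒮 Y (rT S 𝒮 a) (sgl 𝒮 Y i y) = _
  unfold tH
  rw [liftT_r, rH_apply 𝒮 Y ha, hsh_sgl]

theorem hat_p (i : ℤ) (v : Hat 𝒮 Y) :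
    pT S 𝒮 i • v = sgl 𝒮 Y i ((show ℤ →₀ Y from v) i) := by
  change tH 𝒮 Y (pT S 𝒮 i) v = _
  unfold tH
  rw [liftT_p, pH_apply]

theorem hat_p_sgl (i j : ℤ) (y : Y) :
    pT S 𝒮 i • sgl 𝒮 Y j y = if i = j then sgl 𝒮 Y j y else 0 := by
  change tH 𝒮 Y (pT S 𝒮 i) _ = _
  unfold tH
  rw [liftT_p, pH_sgl]

theorem hat_LF : LF S 𝒮 (Hat 𝒮 Y) := by
  intro v
  refine ⟨(show ℤ →₀ Y from v).support, ?_⟩
  simp_rw [hat_p]
  exact (Finsupp.sum_single (show ℤ →₀ Y from v)).symm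

noncomputable def ev0 : Hat 𝒮 Y →+ Y := Finsupp.liftAddHom (fun _ => AddMonoidHom.id Y)

theorem ev0_sgl (i : ℤ) (y : Y) : ev0 𝒮 (sgl 𝒮 Y i y) = y :=
  Finsupp.liftAddHom_apply_single _ _ _

/-- evaluation at 1 -/
noncomputable def ev : Hat 𝒮 Y →ₗ[S] Y where
  toFun := ev0 𝒮
  map_add' := map_add _
  map_smul' a := by
    simp only [RingHom.id_apply]
    induction a using DirectSum.Decomposition.inductionOn 𝒮 with
    | zero => intro v; simp
    | homogeneous a =>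
      rename_i k
      have : (ev0 𝒮).comp (DistribSMul.toAddMonoidHom (Hat 𝒮 Y) (a : S)) =
          (DistribSMul.toAddMonoidHom Y (a : S)).comp (ev0 𝒮) := by
        apply hat_ext
        intro i y
        change ev0 𝒮 ((a : S) • sgl 𝒮 Y i y) = (a : S) • ev0 𝒮 (sgl 𝒮 Y i y)
        rw [hat_smul 𝒮 a.2, ev0_sgl, ev0_sgl]
      intro v
      exact DFunLike.congr_fun this v
    | add a b h1 h2 => intro v; rw [add_smul, map_add, h1, h2, add_smul]

theorem ev_sgl (i : ℤ) (y : Y) : ev 𝒮 (sgl 𝒮 Y i y) = y := ev0_sgl 𝒮 i y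

end Hat

section homog

variable {S : Type u} [Ring S] {𝒮 : ℤ → AddSubgroup S} [GradedRing 𝒮]
variable {V : Type u} [AddCommGroup V] [Module S V] [Module (TT S 𝒮) V]
  [IsScalarTower S (TT S 𝒮) V]

theorem p_smul_homog {j : ℤ} {z : V} (hz : pT S 𝒮 j • z = z) (i : ℤ) (a : S) :
    pT S 𝒮 i • a • z = ((DirectSum.decompose 𝒮 a (i - j) : 𝒮 (i - j)) : S) • z := by
  induction a using DirectSum.Decomposition.inductionOn 𝒮 with
  | zero => simp
  | homogeneous a =>
    rename_i k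
    rw [p_smul a.2]
    by_cases h : i - j = k
    · have h1 : i - k = j := by omega
      rw [h1, hz]
      subst h
      rw [DirectSum.decompose_coe, DirectSum.of_eq_same]
    · rw [← hz, p_ne (by omega), DirectSum.decompose_coe, DirectSum.of_eq_of_ne _ _ _ h]
      simp
  | add a b h1 h2 =>
    rw [add_smul, smul_add, h1, h2, DirectSum.decompose_add, DirectSum.add_apply,
      AddSubgroup.coe_add, add_smul]

/-- T-span of a homogeneous element is its S-span -/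
theorem T_smul_homog {j : ℤ} {z : V} (hz : pT S 𝒮 j • z = z) (t : TT S 𝒮) :
    ∀ a : S, ∃ b : S, t • a • z = b • z := by
  induction t using T_induction with
  | hr c => intro a; exact ⟨c * a, by rw [rT_smul, mul_smul]⟩
  | hp i => intro a; exact ⟨_, p_smul_homog hz i a⟩
  | hm x y hx hy =>
    intro a
    obtain ⟨b, hb⟩ := hy a
    obtain ⟨c, hc⟩ := hx b
    exact ⟨c, by rw [mul_smul, hb, hc]⟩
  | ha x y hx hy =>
    intro a
    obtain ⟨b, hb⟩ := hx a
    obtain ⟨c, hc⟩ := hy a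
    exact ⟨b + c, by rw [add_smul, hb, hc, add_smul]⟩

theorem span_homog {s : Set V} (hs : ∀ z ∈ s, ∃ j, pT S 𝒮 j • z = z) :
    (Submodule.span (TT S 𝒮) s).restrictScalars S = Submodule.span S s := by
  have key : ∀ (t : TT S 𝒮) (x : V), x ∈ Submodule.span S s → t • x ∈ Submodule.span S s := by
    intro t x hx
    induction hx using Submodule.closure_induction with
    | zero => rw [smul_zero]; exact zero_mem _
    | add x y _ _ h3 h4 => rw [smul_add]; exact add_mem h3 h4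
    | smul_mem a x hx =>
      obtain ⟨j, hj⟩ := hs x hx
      obtain ⟨b, hb⟩ := T_smul_homog hj t a
      rw [hb]
      exact Submodule.smul_mem _ _ (Submodule.subset_span hx)
  apply le_antisymm
  · intro x hx
    have hx' : x ∈ Submodule.span (TT S 𝒮) s := hx
    clear hx
    induction hx' using Submodule.span_induction with
    | mem x h => exact Submodule.subset_span h
    | zero => exact zero_mem _
    | add x y h1 h2 h3 h4 => exact add_mem h3 h4
    | smul t x h1 h2 => exact key t x h2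
  · rw [Submodule.span_le]
    exact Submodule.subset_span

end homog

end X233.GP
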