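import Pool.Agent.X233.GP.GG

open DirectSum CategoryTheory

namespace X233.GP

universe u

set_option linter.unusedSectionVars false

section main

variable {S : Type u} [Ring S] {𝒮 : ℤ → AddSubgroup S}

variable (𝒮) in
/-- a left module over the graded ring that admits a compatible grading -/
def GradableL (M : Type u) [AddCommGroup M] [Module S M] : Prop :=
  ∃ ℳ : ℤ → AddSubgroup M, DirectSum.IsInternal ℳ ∧
    ∀ i j, ∀ a ∈ 𝒮 i, ∀ m ∈ ℳ j, a • m ∈ ℳ (i + j)

theorem gradable_of_equiv {V : Type u} [AddCommGroup V] [Module S V] [Module (TT S 𝒮) V]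
    [IsScalarTower S (TT S 𝒮) V] (hV : LF S 𝒮 V) {M : Type u} [AddCommGroup M] [Module S M]
    (E : V ≃ₗ[S] M) : GradableL 𝒮 M := by
  classical
  let ℳ : ℤ → AddSubgroup M := fun i =>
    { carrier := {m | pT S 𝒮 i • E.symm m = E.symm m}
      add_mem' := by
        intro a b ha hb
        simp only [Set.mem_ofPred_eq] at ha hb ⊢
        rw [map_add, smul_add, ha, hb]
      zero_mem' := by
        simp only [Set.mem_ofPred_eq]
        rw [map_zero, smul_zero]
      neg_mem' := by
        intro a ha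
        simp only [Set.mem_ofPred_eq] at ha ⊢
        rw [map_neg, smul_neg, ha] }
  have hm : ∀ i m, m ∈ ℳ i ↔ pT S 𝒮 i • E.symm m = E.symm m := fun i m => Iff.rfl
  refine ⟨ℳ, ⟨?_, ?_⟩, ?_⟩
  · rw [injective_iff_map_eq_zero]
    intro x hx
    have key : ∀ (j : ℤ) (x : ⨁ i, ℳ i), pT S 𝒮 j • E.symm (DirectSum.coeAddMonoidHom ℳ x) =
        E.symm (x j : M) := by
      intro j x
      induction x using DirectSum.induction_on with
      | zero => rw [map_zero, map_zero, smul_zero, DirectSum.zero_apply, ZeroMemClass.coe_zero,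
          map_zero]
      | of i y =>
        rw [DirectSum.coeAddMonoidHom_of]
        have hy := (hm i y).mp y.2
        by_cases h : j = i
        · subst h
          rw [hy, DirectSum.of_eq_same]
        · rw [← hy, p_ne h, DirectSum.of_eq_of_ne _ _ _ h, ZeroMemClass.coe_zero, map_zero]
      | add x y h1 h2 =>
        rw [map_add, map_add, smul_add, h1, h2, DirectSum.add_apply, AddSubgroup.coe_add, map_add]
    ext j
    have := key j x
    rw [hx, map_zero, smul_zero] at this
    rw [DirectSum.zero_apply, ZeroMemClass.coe_zero]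
    exact (E.symm.map_eq_zero_iff.mp this.symm)
  · intro m
    obtain ⟨s, hs⟩ := hV (E.symm m)
    refine ⟨∑ i ∈ s, DirectSum.of (fun i => ℳ i) i ⟨E (pT S 𝒮 i • E.symm m), ?_⟩, ?_⟩
    · rw [hm, E.symm_apply_apply, p_same]
    · rw [map_sum]
      simp_rw [DirectSum.coeAddMonoidHom_of]
      rw [← map_sum, ← hs, E.apply_symm_apply]
  · intro i j a ha m hmm
    rw [hm] at hmm ⊢
    rw [map_smul, p_smul ha, add_sub_cancel_left, hmm]

theorem SummandOf.finite {P X : Type u} [AddCommGroup P] [AddCommGroup X] [Module S P]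
    [Module S X] (h : SummandOf S P X) (hX : Module.Finite S X) : Module.Finite S P := by
  obtain ⟨i, r, h⟩ := h
  exact Module.Finite.of_surjective r (fun x => ⟨i x, LinearMap.congr_fun h x⟩)

theorem SummandOf.of_equiv {P X : Type u} [AddCommGroup P] [AddCommGroup X] [Module S P]
    [Module S X] (e : P ≃ₗ[S] X) : SummandOf S P X :=
  ⟨e.toLinearMap, e.symm.toLinearMap, by ext x; simp⟩

theorem gradable_summand [GradedRing 𝒮] [IsArtinianRing S] [IsNoetherianRing S]
    {P : Type u} [AddCommGroup P] [Module S P] [Module.Finite S P] (hP : Indec S P)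
    {Z : Type u} [AddCommGroup Z] [Module S Z] [Module (TT S 𝒮) Z]
    [IsScalarTower S (TT S 𝒮) Z] [Module.Finite S Z] (hZ : LF S 𝒮 Z) (h : SummandOf S P Z) :
    GradableL 𝒮 P := by
  have ia : IsArtinian S Z := inferInstance
  have ino : IsNoetherian S Z := inferInstance
  have ia' : IsArtinian (TT S 𝒮) Z := isArtinian_of_tower S ia
  have ino' : IsNoetherian (TT S 𝒮) Z := isNoetherian_of_tower S ino
  have ip : IsArtinian S P := inferInstance
  have inp : IsNoetherian S P := inferInstance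
  refine decomp_induction (R := TT S 𝒮) (fun (M : Type u) _ _ => ∀ [Module S M]
    [IsScalarTower S (TT S 𝒮) M], Module.Finite S M → LF S 𝒮 M → SummandOf S P M →
      GradableL 𝒮 P) ?_ ?_ ?_ Z inferInstance hZ h
  · intro M _ _ hs _ _ _ _ h
    exfalso
    obtain ⟨i, r, h⟩ := h
    obtain ⟨x, hx⟩ := @exists_ne _ hP.1 (0 : P)
    apply hx
    have := LinearMap.congr_fun h x
    simp only [LinearMap.comp_apply, LinearMap.id_apply] at this
    rw [← this, Subsingleton.elim (i x) 0, map_zero]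
  · intro M _ _ hI _ _ hfin hLF h
    obtain ⟨i, r, h⟩ := h
    have hb := (gg_indec hLF hI).bij_of_summand hP.1 i r h
    exact gradable_of_equiv hLF (LinearEquiv.ofBijective i hb).symm
  · intro M _ _ A B hAB hA hB _ _ hfin hLF h
    have e : M ≃ₗ[S] (A × B) := ((Submodule.prodEquivOfIsCompl A B hAB).symm).restrictScalars S
    have hf : Module.Finite S (A × B) := Module.Finite.equiv e
    have hfA : Module.Finite S A := Module.Finite.of_surjective (LinearMap.fst S A B)
      LinearMap.fst_surjective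
    have hfB : Module.Finite S B := Module.Finite.of_surjective (LinearMap.snd S A B)
      LinearMap.snd_surjective
    rcases hP.summand_prod (h.trans (.of_equiv e)) with h1 | h1
    · exact hA hfA (hLF.sub A) h1
    · exact hB hfB (hLF.sub B) h1

/-- no indecomposable summand of `X` is a summand of `B` -/
def XFree (S : Type u) [Ring S] (X B : Type u) [AddCommGroup X] [AddCommGroup B] [Module S X]
    [Module S B] : Prop :=
  ∀ (P : Type u) [AddCommGroup P] [Module S P], Indec S P → SummandOf S P X → ¬ SummandOf S P B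

theorem XFree.prod [IsArtinianRing S] [IsNoetherianRing S] {X B B' : Type u} [AddCommGroup X]
    [AddCommGroup B] [AddCommGroup B'] [Module S X] [Module S B] [Module S B']
    (hX : Module.Finite S X) (h : XFree S X B) (h' : XFree S X B') : XFree S X (B × B') := by
  intro P _ _ hP hPX hs
  have := hPX.finite hX
  rcases hP.summand_prod hs with h1 | h1
  · exact h P hP hPX h1
  · exact h' P hP hPX h1

theorem length_T_le {V : Type u} [AddCommGroup V] [Module S V] [Module (TT S 𝒮) V]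
    [IsScalarTower S (TT S 𝒮) V] : Module.length (TT S 𝒮) V ≤ Module.length S V := by
  have h : (Module.length (TT S 𝒮) V : WithBot ℕ∞) ≤ (Module.length S V : WithBot ℕ∞) := by
    rw [Module.coe_length, Module.coe_length]
    refine Order.krullDim_le_of_strictMono (Submodule.restrictScalars S) ?_
    intro A B hAB
    exact hAB
  exact_mod_cast h

/-- existence of finitely generated graded submodules of the hat with large window -/
theorem window [GradedRing 𝒮] [IsArtinianRing S] [IsNoetherianRing S]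
    {Y : Type u} [AddCommGroup Y] [Module S Y] [Module.Finite S Y]
    {V : Type u} [AddCommGroup V] [Module S V] [Module (TT S 𝒮) V]
    [IsScalarTower S (TT S 𝒮) V] [Module.Finite S V] (φ : V →ₗ[TT S 𝒮] Hat 𝒮 Y) (N : ℕ) :
    ∃ Z : Submodule (TT S 𝒮) (Hat 𝒮 Y), Module.Finite S Z ∧ (∀ v, φ v ∈ Z) ∧
      ∀ j : ℤ, |j| ≤ N → ∀ y : Y, sgl 𝒮 Y j y ∈ Z := by
  classical
  obtain ⟨w, hw⟩ := deg_bound (𝒮 := 𝒮) Y
  obtain ⟨G, hG⟩ := (inferInstance : Module.Finite S Y).fg_top
  let s : Finset (Hat 𝒮 Y) := (Finset.Icc (-(N + w : ℤ)) (N + w)).biUnion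
    (fun j => G.image (sgl 𝒮 Y j))
  have hs : ∀ z ∈ (s : Set (Hat 𝒮 Y)), ∃ j, pT S 𝒮 j • z = z := by
    intro z hz
    simp only [s, Finset.coe_biUnion, Set.mem_iUnion, Finset.coe_image, Set.mem_image] at hz
    obtain ⟨j, _, y, _, rfl⟩ := hz
    exact ⟨j, by rw [hat_p_sgl, if_pos rfl]⟩
  let W : Submodule (TT S 𝒮) (Hat 𝒮 Y) := Submodule.span (TT S 𝒮) s
  have hWfin : Module.Finite S W := by
    have h2 : (W.restrictScalars S).FG := by
      simp only [W]
      rw [span_homog hs]
      exact ⟨s, rfl⟩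
    exact Module.Finite.iff_fg.mpr h2
  let Φ : (V × W) →ₗ[TT S 𝒮] Hat 𝒮 Y := φ.coprod W.subtype
  refine ⟨LinearMap.range Φ, ?_, ?_, ?_⟩
  · have hf : Module.Finite S (V × W) := inferInstance
    exact Module.Finite.of_surjective (Φ.rangeRestrict.restrictScalars S)
      Φ.surjective_rangeRestrict
  · intro v
    exact ⟨(v, 0), by simp [Φ]⟩
  · intro j hj y
    have hW : sgl 𝒮 Y j y ∈ W := by
      have hy : y ∈ Submodule.span S (G : Set Y) := hG ▸ Submodule.mem_top
      induction hy using Submodule.closure_induction with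
      | zero => rw [map_zero]; exact zero_mem _
      | add x y _ _ h3 h4 => rw [map_add]; exact add_mem h3 h4
      | smul_mem a g hg =>
        induction a using DirectSum.Decomposition.inductionOn 𝒮 with
        | zero => rw [zero_smul, map_zero]; exact zero_mem _
        | homogeneous a =>
          rename_i l
          by_cases hl : (w : ℤ) < |l|
          · rw [hw l hl a a.2, map_zero]; exact zero_mem _
          · have h1 : sgl 𝒮 Y j ((a : S) • g) = (a : S) • sgl 𝒮 Y (j - l) g := by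
              rw [hat_smul 𝒮 a.2, sub_add_cancel]
            rw [h1, ← rT_smul (𝒮 := 𝒮)]
            apply W.smul_mem
            apply Submodule.subset_span
            simp only [s, Finset.coe_biUnion, Set.mem_iUnion, Finset.coe_image, Set.mem_image]
            refine ⟨j - l, ?_, g, hg, rfl⟩
            rw [Finset.mem_coe, Finset.mem_Icc]
            rw [not_lt, abs_le] at hl
            rw [abs_le] at hj
            constructor <;> omega
        | add a b h1 h2 => rw [add_smul, map_add]; exact add_mem h1 h2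
    exact ⟨(0, ⟨_, hW⟩), by simp [Φ]⟩

/-- a graded retraction onto a finitely generated graded submodule gives an ungraded summand -/
theorem retraction [GradedRing 𝒮] [IsArtinianRing S] [IsNoetherianRing S]
    {Y : Type u} [AddCommGroup Y] [Module S Y]
    {V : Type u} [AddCommGroup V] [Module S V] [Module (TT S 𝒮) V]
    [IsScalarTower S (TT S 𝒮) V] [Module.Finite S V] (hV : LF S 𝒮 V) (hI : Indec (TT S 𝒮) V)
    (φ : V →ₗ[TT S 𝒮] Hat 𝒮 Y) {c w : ℕ}
    (hc : ∀ i : ℤ, (c : ℤ) < |i| → ∀ v : V, pT S 𝒮 i • v = 0)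
    (hw : ∀ k : ℤ, (w : ℤ) < |k| → ∀ a ∈ 𝒮 k, ∀ y : Y, a • y = 0)
    (Z : Submodule (TT S 𝒮) (Hat 𝒮 Y)) (hφ : ∀ v, φ v ∈ Z)
    (hZ : ∀ j : ℤ, |j| ≤ (c + w : ℕ) → ∀ y : Y, sgl 𝒮 Y j y ∈ Z)
    (ρ : Z →ₗ[TT S 𝒮] V) (hρ : ∀ v, ρ ⟨φ v, hφ v⟩ = v) : SummandOf S V Y := by
  classical
  let r : ℤ → Y → V := fun j y => if h : |j| ≤ (c + w : ℕ) then ρ ⟨sgl 𝒮 Y j y, hZ j h y⟩ else 0
  have r_pos : ∀ (j : ℤ) (y : Y) (h : |j| ≤ (c + w : ℕ)), r j y = ρ ⟨sgl 𝒮 Y j y, hZ j h y⟩ :=
    fun j y h => dif_pos h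
  have r_neg : ∀ (j : ℤ) (y : Y) (h : ¬ |j| ≤ (c + w : ℕ)), r j y = 0 := fun j y h => dif_neg h
  have r_add : ∀ j y y', r j (y + y') = r j y + r j y' := by
    intro j y y'
    by_cases h : |j| ≤ (c + w : ℕ)
    · rw [r_pos j _ h, r_pos j _ h, r_pos j _ h, ← map_add]
      congr 1
      apply Subtype.ext
      exact map_add _ _ _
    · rw [r_neg j _ h, r_neg j _ h, r_neg j _ h, add_zero]
  have r_zero : ∀ j, r j 0 = 0 := by
    intro j
    have := r_add j 0 0
    rw [add_zero] at this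
    exact left_eq_add.mp this
  have r_p : ∀ i j y, pT S 𝒮 i • r j y = if i = j then r j y else 0 := by
    intro i j y
    by_cases h : |j| ≤ (c + w : ℕ)
    · rw [r_pos j _ h, ← map_smul]
      split_ifs with hij
      · congr 1
        apply Subtype.ext
        simp only [Submodule.coe_smul]
        rw [hat_p_sgl, if_pos hij]
      · have : pT S 𝒮 i • (⟨sgl 𝒮 Y j y, hZ j h y⟩ : Z) = 0 := by
          apply Subtype.ext
          simp only [Submodule.coe_smul, ZeroMemClass.coe_zero]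
          rw [hat_p_sgl, if_neg hij]
        rw [this, map_zero]
    · rw [r_neg j _ h, smul_zero, ite_self]
  have r_out : ∀ j : ℤ, (c : ℤ) < |j| → ∀ y, r j y = 0 := by
    intro j hj y
    have := r_p j j y
    rw [if_pos rfl, hc j hj] at this
    exact this.symm
  have r_smul : ∀ k, ∀ a ∈ 𝒮 k, ∀ j y, r (j + k) (a • y) = a • r j y := by
    intro k a ha j y
    by_cases hk : (w : ℤ) < |k|
    · rw [hw k hk a ha, r_zero]
      by_cases h : |j| ≤ (c + w : ℕ)
      · rw [r_pos j _ h, ← rT_smul (𝒮 := 𝒮) (V := V) a, ← map_smul]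
        have : rT S 𝒮 a • (⟨sgl 𝒮 Y j y, hZ j h y⟩ : Z) = 0 := by
          apply Subtype.ext
          simp only [Submodule.coe_smul, ZeroMemClass.coe_zero]
          rw [rT_smul, hat_smul 𝒮 ha, hw k hk a ha, map_zero]
        rw [this, map_zero]
      · rw [r_neg j _ h, smul_zero]
    · rw [not_lt] at hk
      by_cases h : |j| ≤ (c + w : ℕ)
      · by_cases h2 : |j + k| ≤ (c + w : ℕ)
        · rw [r_pos j _ h, r_pos _ _ h2, ← rT_smul (𝒮 := 𝒮) (V := V) a, ← map_smul]
          congr 1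
          apply Subtype.ext
          simp only [Submodule.coe_smul]
          rw [rT_smul, hat_smul 𝒮 ha]
        · have h3 : (c : ℤ) < |j| := by
            rw [not_le] at h2
            have := abs_add_le j k
            push_cast at h2
            linarith
          rw [r_neg _ _ h2, r_out j h3, smul_zero]
      · have h3 : (c : ℤ) < |j + k| := by
          rw [not_le] at h
          have h4 : |j| ≤ |j + k| + |k| := by
            have := abs_sub (j + k) k
            rwa [add_sub_cancel_right] at this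
          push_cast at h
          linarith
        rw [r_neg _ _ h, r_out _ h3, smul_zero]
  have hfin : ∀ y, (Function.support fun j => r j y).Finite := by
    intro y
    apply (Finset.finite_toSet (Finset.Icc (-(c : ℤ)) c)).subset
    intro j hj
    rw [Finset.mem_coe, Finset.mem_Icc, ← abs_le]
    by_contra hcon
    exact hj (r_out j (not_le.mp hcon) y)
  let b0 : Y →+ V := AddMonoidHom.mk' (fun y => ∑ᶠ j, r j y) (by
    intro y y'
    rw [← finsum_add_distrib (hfin y) (hfin y')]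
    congr 1; ext j; exact r_add j y y')
  have b0_apply : ∀ y, b0 y = ∑ᶠ j, r j y := fun y => rfl
  have b0_smul : ∀ (a : S) y, b0 (a • y) = a • b0 y := by
    intro a
    induction a using DirectSum.Decomposition.inductionOn 𝒮 with
    | zero => intro y; rw [zero_smul, zero_smul, map_zero]
    | homogeneous a =>
      rename_i k
      intro y
      rw [b0_apply, b0_apply, smul_finsum' _ (hfin y)]
      rw [← finsum_comp_equiv (Equiv.addRight k) (f := fun j => r j ((a : S) • y))]
      congr 1; ext j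
      exact r_smul k a a.2 j y
    | add a b h1 h2 => intro y; rw [add_smul, map_add, h1, h2, add_smul]
  let b : Y →ₗ[S] V := { toFun := b0, map_add' := b0.map_add, map_smul' := b0_smul }
  let g : V →ₗ[S] Y := ev 𝒮 ∘ₗ φ.restrictScalars S
  have hcmp : ∀ v, cmp 𝒮 (b ∘ₗ g) 0 v = v := by
    intro v
    have h1 : ∀ i, pT S 𝒮 (i + 0) • (b ∘ₗ g) (pT S 𝒮 i • v) = pT S 𝒮 i • v := by
      intro i
      rw [add_zero]
      by_cases hi : (c : ℤ) < |i|
      · rw [hc i hi, hc i hi]
      · have hi' : |i| ≤ (c + w : ℕ) := by push_cast; rw [not_lt] at hi; linarith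
        set y := (show ℤ →₀ Y from φ v) i with hy
        have h2 : φ (pT S 𝒮 i • v) = sgl 𝒮 Y i y := by rw [map_smul, hat_p]
        have h3 : g (pT S 𝒮 i • v) = y := by
          change ev 𝒮 (φ (pT S 𝒮 i • v)) = y
          rw [h2, ev_sgl]
        rw [LinearMap.comp_apply, h3]
        change pT S 𝒮 i • b0 y = _
        rw [b0_apply, smul_finsum' _ (hfin y)]
        simp_rw [r_p]
        rw [finsum_eq_single _ i (fun j hj => if_neg (Ne.symm hj)), if_pos rfl, r_pos i y hi']
        have h4 : (⟨sgl 𝒮 Y i y, hZ i hi' y⟩ : Z) =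
            ⟨φ (pT S 𝒮 i • v), hφ _⟩ := Subtype.ext h2.symm
        rw [h4, hρ]
    unfold cmp
    simp_rw [h1]
    obtain ⟨s, hs⟩ := hV v
    rw [finsum_eq_sum_of_support_subset (s := s)]
    · exact hs.symm
    · intro i hi
      by_contra hcon
      exact hi (LF.finset hs hcon)
  have hunit := gg_unit hV hI (b ∘ₗ g) (by
    have : (cmp 𝒮 (b ∘ₗ g) 0 : V → V) = id := by ext v; exact hcmp v
    rw [this]; exact Function.bijective_id)
  exact .of_unit g b hunit

/-- finding a summand through which the element is not in `I` -/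
theorem find_summand [GradedRing 𝒮] [IsArtinianRing S] [IsNoetherianRing S]
    {X Y : Type u} [AddCommGroup X] [Module S X] [Module.Finite S X]
    [AddCommGroup Y] [Module S Y] (I : Submodule S Y)
    (hI : ∀ (B : Type u) [AddCommGroup B] [Module S B] [Module (TT S 𝒮) B]
      [IsScalarTower S (TT S 𝒮) B], Module.Finite S B → LF S 𝒮 B → XFree S X B →
      ∀ f : B →ₗ[S] Y, ∀ x, f x ∈ I) (b : ℕ) (hb : Module.length S X ≤ b)
    {Z : Type u} [AddCommGroup Z] [Module S Z] [Module (TT S 𝒮) Z]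
    [IsScalarTower S (TT S 𝒮) Z] (hfin : Module.Finite S Z) (hZ : LF S 𝒮 Z)
    (x : Z) (χ : Z →ₗ[TT S 𝒮] Hat 𝒮 Y) (hx : ev 𝒮 (χ x) ∉ I) :
    ∃ (V : ModuleCat.{u} (TT S 𝒮)) (_ : Module S V) (_ : IsScalarTower S (TT S 𝒮) V),
      Module.Finite S V ∧ LF S 𝒮 V ∧ Indec (TT S 𝒮) V ∧ Module.length (TT S 𝒮) V ≤ b ∧
      ∃ (j : V →ₗ[TT S 𝒮] Z) (q : Z →ₗ[TT S 𝒮] V), q ∘ₗ j = LinearMap.id ∧
        ev 𝒮 (χ (j (q x))) ∉ I := by
  have ia : IsArtinian S Z := inferInstance
  have ino : IsNoetherian S Z := inferInstance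
  have ia' : IsArtinian (TT S 𝒮) Z := isArtinian_of_tower S ia
  have ino' : IsNoetherian (TT S 𝒮) Z := isNoetherian_of_tower S ino
  refine decomp_induction (R := TT S 𝒮) (fun (M : Type u) _ _ => ∀ [Module S M]
    [IsScalarTower S (TT S 𝒮) M], Module.Finite S M → LF S 𝒮 M →
    ∀ (x : M) (χ : M →ₗ[TT S 𝒮] Hat 𝒮 Y), ev 𝒮 (χ x) ∉ I →
    ∃ (V : ModuleCat.{u} (TT S 𝒮)) (_ : Module S V) (_ : IsScalarTower S (TT S 𝒮) V),
      Module.Finite S V ∧ LF S 𝒮 V ∧ Indec (TT S 𝒮) V ∧ Module.length (TT S 𝒮) V ≤ b ∧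
      ∃ (j : V →ₗ[TT S 𝒮] M) (q : M →ₗ[TT S 𝒮] V), q ∘ₗ j = LinearMap.id ∧
        ev 𝒮 (χ (j (q x))) ∉ I) ?_ ?_ ?_ Z hfin hZ x χ hx
  · intro M _ _ hs _ _ _ _ x χ hx
    exfalso
    apply hx
    rw [Subsingleton.elim x 0, map_zero, map_zero]
    exact zero_mem _
  · intro M _ _ hInd _ _ hfin hLF x χ hx
    have hnf : ¬ XFree S X M := by
      intro hf
      exact hx (hI M hfin hLF hf (ev 𝒮 ∘ₗ χ.restrictScalars S) x)
    unfold XFree at hnf
    push Not at hnf
    obtain ⟨P, _, _, hP, hPX, hPM⟩ := hnf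
    have hSInd := gg_indec hLF hInd
    obtain ⟨i, r, h⟩ := hPM
    have hbij := hSInd.bij_of_summand hP.1 i r h
    have e : P ≃ₗ[S] M := LinearEquiv.ofBijective i hbij
    have hlen : Module.length (TT S 𝒮) M ≤ b := by
      refine le_trans length_T_le ?_
      rw [← e.length_eq]
      refine le_trans ?_ hb
      obtain ⟨i', r', h'⟩ := hPX
      exact Module.length_le_of_injective i'
        (Function.LeftInverse.injective fun x => LinearMap.congr_fun h' x)
    exact ⟨ModuleCat.of (TT S 𝒮) M, ‹_›, ‹_›, hfin, hLF, hInd, hlen, LinearMap.id,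
      LinearMap.id, rfl, hx⟩
  · intro M _ _ A B hAB hA hB _ _ hfin hLF x χ hx
    have gen : ∀ (A B : Submodule (TT S 𝒮) M) (hAB : IsCompl A B),
        (∀ (x : A) (χ : A →ₗ[TT S 𝒮] Hat 𝒮 Y), ev 𝒮 (χ x) ∉ I →
          ∃ (V : ModuleCat.{u} (TT S 𝒮)) (_ : Module S V) (_ : IsScalarTower S (TT S 𝒮) V),
            Module.Finite S V ∧ LF S 𝒮 V ∧ Indec (TT S 𝒮) V ∧
            Module.length (TT S 𝒮) V ≤ b ∧
            ∃ (j : V →ₗ[TT S 𝒮] A) (q : A →ₗ[TT S 𝒮] V), q ∘ₗ j = LinearMap.id ∧
              ev 𝒮 (χ (j (q x))) ∉ I) →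
        ev 𝒮 (χ (A.projectionOnto B hAB x : A)) ∉ I →
        ∃ (V : ModuleCat.{u} (TT S 𝒮)) (_ : Module S V) (_ : IsScalarTower S (TT S 𝒮) V),
          Module.Finite S V ∧ LF S 𝒮 V ∧ Indec (TT S 𝒮) V ∧
          Module.length (TT S 𝒮) V ≤ b ∧
          ∃ (j : V →ₗ[TT S 𝒮] M) (q : M →ₗ[TT S 𝒮] V), q ∘ₗ j = LinearMap.id ∧
            ev 𝒮 (χ (j (q x))) ∉ I := by
      intro A B hAB hA hx'
      obtain ⟨V, i1, i2, h1, h2, h3, h4, j, q, hjq, h5⟩ := hA
        (A.projectionOnto B hAB x) (χ ∘ₗ A.subtype) hx'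
      refine ⟨V, i1, i2, h1, h2, h3, h4, A.subtype ∘ₗ j, q ∘ₗ A.projectionOnto B hAB, ?_, h5⟩
      ext v
      have h6 := LinearMap.congr_fun hjq v
      simp only [LinearMap.comp_apply, LinearMap.id_apply, Submodule.subtype_apply,
        Submodule.projectionOnto_apply_left] at h6 ⊢
      exact h6
    have hsum : (A.projectionOnto B hAB x : M) + (B.projectionOnto A hAB.symm x : M) = x := by
      have := Submodule.projection_add_projection_eq_self hAB x
      simpa using this
    have hfA : Module.Finite S A := Module.Finite.of_surjective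
      ((A.projectionOnto B hAB).restrictScalars S) (Submodule.projectionOnto_surjective hAB)
    have hfB : Module.Finite S B := Module.Finite.of_surjective
      ((B.projectionOnto A hAB.symm).restrictScalars S)
      (Submodule.projectionOnto_surjective hAB.symm)
    by_cases h1 : ev 𝒮 (χ (A.projectionOnto B hAB x : A)) ∉ I
    · exact gen A B hAB (fun x χ hx => hA hfA (hLF.sub A) x χ hx) h1
    · rw [not_not] at h1
      apply gen B A hAB.symm (fun x χ hx => hB hfB (hLF.sub B) x χ hx)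
      intro h2
      apply hx
      rw [← hsum, map_add, map_add]
      exact add_mem h1 h2

theorem main_left [GradedRing 𝒮] [IsArtinianRing S] [IsNoetherianRing S]
    {X Y : Type u} [AddCommGroup X] [Module S X] [Module.Finite S X]
    [AddCommGroup Y] [Module S Y] [Module.Finite S Y] (hY : Indec S Y)
    (hXY : ∀ (Z : Type u) [AddCommGroup Z] [Module S Z], Module.Finite S Z →
      ∀ f : Z →ₗ[S] Y, Function.Surjective f → (¬ ∃ s : Y →ₗ[S] Z, f ∘ₗ s = LinearMap.id) →
      ∃ (W : Type u) (_ : AddCommGroup W) (_ : Module S W), Nontrivial W ∧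
        (∃ n, SummandOf S W (Fin n → X)) ∧ SummandOf S W Z) : GradableL 𝒮 Y := by
  classical
  by_contra hng
  let 𝓘 : Set (Submodule S Y) := {N | ∃ (B : Type u) (_ : AddCommGroup B) (_ : Module S B)
    (_ : Module (TT S 𝒮) B) (_ : IsScalarTower S (TT S 𝒮) B), Module.Finite S B ∧ LF S 𝒮 B ∧
    XFree S X B ∧ ∃ f : B →ₗ[S] Y, LinearMap.range f = N}
  have hne : 𝓘.Nonempty := by
    refine ⟨⊥, PUnit, inferInstance, inferInstance, inferInstance, inferInstance, inferInstance,
      ?_, ?_, 0, by simp⟩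
    · intro v
      exact ⟨∅, Subsingleton.elim _ _⟩
    · intro P _ _ hP _ h
      obtain ⟨i, r, h⟩ := h
      obtain ⟨x, hx⟩ := @exists_ne _ hP.1 (0 : P)
      apply hx
      have := LinearMap.congr_fun h x
      simp only [LinearMap.comp_apply, LinearMap.id_apply] at this
      rw [← this, Subsingleton.elim (i x) 0, map_zero]
  have inoY : IsNoetherian S Y := inferInstance
  obtain ⟨I, hImem, hImax⟩ := set_has_maximal_iff_noetherian.mpr inoY 𝓘 hne
  obtain ⟨B₀, _, _, _, _, hB₀f, hB₀L, hB₀X, f₀, hf₀⟩ := hImem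
  have hI : ∀ (B : Type u) [AddCommGroup B] [Module S B] [Module (TT S 𝒮) B]
      [IsScalarTower S (TT S 𝒮) B], Module.Finite S B → LF S 𝒮 B → XFree S X B →
      ∀ f : B →ₗ[S] Y, ∀ x, f x ∈ I := by
    intro B _ _ _ _ hBf hBL hBX f x
    have hmem : I ⊔ LinearMap.range f ∈ 𝓘 := by
      refine ⟨B₀ × B, inferInstance, inferInstance, inferInstance, inferInstance, inferInstance,
        ?_, XFree.prod inferInstance hB₀X hBX, f₀.coprod f, ?_⟩
      · intro v
        obtain ⟨s, hs⟩ := hB₀L v.1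
        obtain ⟨t, ht⟩ := hBL v.2
        refine ⟨s ∪ t, ?_⟩
        apply Prod.ext
        · rw [Prod.fst_sum]
          simp only [Prod.smul_fst]
          exact hB₀L.sum fun i hi => LF.finset hs fun h => hi (Finset.mem_union_left _ h)
        · rw [Prod.snd_sum]
          simp only [Prod.smul_snd]
          exact hBL.sum fun i hi => LF.finset ht fun h => hi (Finset.mem_union_right _ h)
      · rw [LinearMap.range_coprod, hf₀]
    have h1 := hImax _ hmem
    have h2 : I = I ⊔ LinearMap.range f := by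
      by_contra hcon
      exact h1 (lt_of_le_of_ne le_sup_left hcon)
    rw [h2]
    exact Submodule.mem_sup_right ⟨x, rfl⟩
  by_cases htop : I = ⊤
  · -- surjective, nonsplit
    have hsurj : Function.Surjective f₀ := by
      rw [← LinearMap.range_eq_top, hf₀, htop]
    obtain ⟨W, _, _, hWn, ⟨n, hWX⟩, hWB⟩ := hXY B₀ hB₀f f₀ hsurj (by
      rintro ⟨s, hs⟩
      exact hng (gradable_summand hY hB₀L ⟨s, f₀, hs⟩))
    have hWf : Module.Finite S W := hWB.finite hB₀f
    obtain ⟨A, hA, hAW⟩ := exists_indec_summand (R := S) W hWn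
    have hAf : Module.Finite S A := hAW.finite hWf
    exact hB₀X A hA (hA.summand_pi n (hAW.trans hWX)) (hAW.trans hWB)
  · obtain ⟨y, hy⟩ : ∃ y, y ∉ I := by
      by_contra hcon
      push Not at hcon
      exact htop (eq_top_iff.mpr fun y _ => hcon y)
    have iaX : IsArtinian S X := inferInstance
    have inoX : IsNoetherian S X := inferInstance
    obtain ⟨b, hb⟩ := ENat.ne_top_iff_exists.mp (Module.length_ne_top (R := S) (M := X))
    obtain ⟨Z₀, hZ₀f, _, hZ₀⟩ := window (𝒮 := 𝒮) (Y := Y) (V := PUnit) 0 0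
    obtain ⟨V₀, i1, i2, h1, h2, h3, h4, j₀, q₀, hjq₀, h5⟩ := find_summand (𝒮 := 𝒮) I hI b hb.ge
      hZ₀f ((hat_LF 𝒮).sub Z₀) ⟨sgl 𝒮 Y 0 y, hZ₀ 0 (by simp) y⟩ Z₀.subtype (by
        rw [Submodule.subtype_apply, ev_sgl]; exact hy)
    set x₀ := q₀ ⟨sgl 𝒮 Y 0 y, hZ₀ 0 (by simp) y⟩ with hx₀
    obtain ⟨w, hw⟩ := deg_bound (𝒮 := 𝒮) Y
    refine no_path b V₀ (fun M ψ => ∃ (_ : Module S M) (_ : IsScalarTower S (TT S 𝒮) M),
      Module.Finite S M ∧ LF S 𝒮 M ∧ Indec (TT S 𝒮) M ∧ Module.length (TT S 𝒮) M ≤ b ∧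
      ∃ φ : M →ₗ[TT S 𝒮] Hat 𝒮 Y, ev 𝒮 (φ (ψ.hom x₀)) ∉ I) ?_ ?_ ?_
    · exact ⟨V₀, 𝟙 _, i1, i2, h1, h2, h3, h4, Z₀.subtype ∘ₗ j₀, h5⟩
    · rintro M ψ ⟨_, _, _, _, hMI, hMl, φ, hφ⟩
      refine ⟨?_, hMI, hMl⟩
      intro h0
      apply hφ
      rw [h0, LinearMap.zero_apply, map_zero, map_zero]
      exact zero_mem _
    · rintro M ψ ⟨_, _, hMf, hML, hMI, hMl, φ, hφ⟩
      obtain ⟨c, hc⟩ := FS_fin hML
      obtain ⟨Z, hZf, hφZ, hZ⟩ := window φ (c + w)
      obtain ⟨V', k1, k2, m1, m2, m3, m4, j, q, hjq, m5⟩ := find_summand (𝒮 := 𝒮) I hI b hb.ge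
        hZf ((hat_LF 𝒮).sub Z) ⟨φ (ψ.hom x₀), hφZ _⟩ Z.subtype hφ
      let φ' : M →ₗ[TT S 𝒮] Z := φ.codRestrict Z hφZ
      refine ⟨V', ModuleCat.ofHom (q ∘ₗ φ'), ?_, k1, k2, m1, m2, m3, m4, Z.subtype ∘ₗ j, m5⟩
      intro hbij
      let E : M ≃ₗ[TT S 𝒮] V' := LinearEquiv.ofBijective (q ∘ₗ φ') hbij
      have hs : SummandOf S M Y := retraction hML hMI φ hc hw Z hφZ hZ
        (E.symm.toLinearMap ∘ₗ q) (by
          intro v
          change E.symm (q (φ' v)) = v
          exact E.symm_apply_apply v)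
      obtain ⟨i, r, hir⟩ := hs
      have hbij2 := hY.bij_of_summand hMI.1 i r hir
      exact hng (gradable_of_equiv hML (LinearEquiv.ofBijective i hbij2))

end main

end X233.GP
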