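import Pool.Agent.X233.GP.Main

open DirectSum MulOpposite

namespace X233.GP

universe u

section opp

variable {R : Type u} [Ring R] (𝒜 : ℤ → AddSubgroup R)

/-- the grading of the opposite ring -/
def opG (i : ℤ) : AddSubgroup Rᵐᵒᵖ := (𝒜 i).comap (opAddEquiv.symm : Rᵐᵒᵖ ≃+ R).toAddMonoidHom

theorem mem_opG (i : ℤ) (x : Rᵐᵒᵖ) : x ∈ opG 𝒜 i ↔ x.unop ∈ 𝒜 i := Iff.rfl

def opEquiv (i : ℤ) : 𝒜 i ≃+ opG 𝒜 i where
  toFun a := ⟨op (a : R), a.2⟩
  invFun a := ⟨(a : Rᵐᵒᵖ).unop, a.2⟩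
  left_inv _ := rfl
  right_inv _ := rfl
  map_add' _ _ := rfl

noncomputable def opSum : (⨁ i, 𝒜 i) ≃+ (⨁ i, opG 𝒜 i) := DFinsupp.mapRange.addEquiv (opEquiv 𝒜)

theorem coe_opSum (x : ⨁ i, 𝒜 i) : DirectSum.coeAddMonoidHom (opG 𝒜) (opSum 𝒜 x) =
    op (DirectSum.coeAddMonoidHom 𝒜 x) := by
  induction x using DirectSum.induction_on with
  | zero => rw [map_zero, map_zero, map_zero]; rfl
  | of i y =>
    rw [DirectSum.coeAddMonoidHom_of]
    have : opSum 𝒜 (DirectSum.of (fun i => 𝒜 i) i y) =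
        DirectSum.of (fun i => opG 𝒜 i) i (opEquiv 𝒜 i y) := by
      exact DFinsupp.mapRange_single (hf := fun i => map_zero (opEquiv 𝒜 i))
    rw [this, DirectSum.coeAddMonoidHom_of]; rfl
  | add x y h1 h2 => rw [map_add, map_add, map_add, h1, h2]; rfl

variable [GradedRing 𝒜]

noncomputable instance opGraded : GradedRing (opG 𝒜) where
  one_mem := (mem_opG 𝒜 0 1).mpr (SetLike.GradedOne.one_mem (A := 𝒜))
  mul_mem := by
    intro i j x y hx hy
    rw [mem_opG] at hx hy ⊢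
    rw [unop_mul, add_comm]
    exact SetLike.GradedMul.mul_mem hy hx
  decompose' x := opSum 𝒜 (DirectSum.decompose 𝒜 x.unop)
  left_inv x := by
    rw [coe_opSum]
    exact congrArg op (DirectSum.Decomposition.left_inv (ℳ := 𝒜) x.unop)
  right_inv x := by
    obtain ⟨z, rfl⟩ := (opSum 𝒜).surjective x
    rw [coe_opSum]
    exact congrArg (opSum 𝒜) (DirectSum.Decomposition.right_inv (ℳ := 𝒜) z)

end opp

end X233.GP
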