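import Pool.Agent.X233.GP.Gen

open DirectSum

namespace X233.GP

universe u

set_option linter.unusedSectionVars false

section

variable (S : Type u) [Ring S] (𝒮 : ℤ → AddSubgroup S)

inductive Rel : FreeAlgebra ℤ (S ⊕ ℤ) → FreeAlgebra ℤ (S ⊕ ℤ) → Prop
  | one : Rel (FreeAlgebra.ι ℤ (Sum.inl 1)) 1
  | add (a b : S) : Rel (FreeAlgebra.ι ℤ (Sum.inl (a + b)))
      (FreeAlgebra.ι ℤ (Sum.inl a) + FreeAlgebra.ι ℤ (Sum.inl b))
  | mul (a b : S) : Rel (FreeAlgebra.ι ℤ (Sum.inl (a * b)))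
      (FreeAlgebra.ι ℤ (Sum.inl a) * FreeAlgebra.ι ℤ (Sum.inl b))
  | idem (i : ℤ) : Rel (FreeAlgebra.ι ℤ (Sum.inr i) * FreeAlgebra.ι ℤ (Sum.inr i))
      (FreeAlgebra.ι ℤ (Sum.inr i))
  | orth (i j : ℤ) (h : i ≠ j) :
      Rel (FreeAlgebra.ι ℤ (Sum.inr i) * FreeAlgebra.ι ℤ (Sum.inr j)) 0
  | comm (i j : ℤ) (a : S) (ha : a ∈ 𝒮 j) :
      Rel (FreeAlgebra.ι ℤ (Sum.inr (i + j)) * FreeAlgebra.ι ℤ (Sum.inl a))
        (FreeAlgebra.ι ℤ (Sum.inl a) * FreeAlgebra.ι ℤ (Sum.inr i))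

/-- The ring whose modules are modules over the graded ring with projections. -/
def TT : Type u := RingQuot (Rel S 𝒮)

noncomputable instance : Ring (TT S 𝒮) := inferInstanceAs (Ring (RingQuot (Rel S 𝒮)))

noncomputable def mkT : FreeAlgebra ℤ (S ⊕ ℤ) →+* TT S 𝒮 := RingQuot.mkRingHom (Rel S 𝒮)

theorem mkT_surj : Function.Surjective (mkT S 𝒮) := RingQuot.mkRingHom_surjective _

theorem mkT_rel {x y} (h : Rel S 𝒮 x y) : mkT S 𝒮 x = mkT S 𝒮 y := RingQuot.mkRingHom_rel h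

noncomputable def pT (i : ℤ) : TT S 𝒮 := mkT S 𝒮 (FreeAlgebra.ι ℤ (Sum.inr i))

noncomputable def rT : S →+* TT S 𝒮 where
  toFun a := mkT S 𝒮 (FreeAlgebra.ι ℤ (Sum.inl a))
  map_one' := by rw [mkT_rel S 𝒮 .one, map_one]
  map_mul' a b := by rw [mkT_rel S 𝒮 (.mul a b), map_mul]
  map_add' a b := by rw [mkT_rel S 𝒮 (.add a b), map_add]
  map_zero' := by
    have h := mkT_rel S 𝒮 (.add 0 0)
    rw [map_add, add_zero] at h
    exact left_eq_add.mp h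

theorem pT_idem (i : ℤ) : pT S 𝒮 i * pT S 𝒮 i = pT S 𝒮 i := by
  unfold pT; rw [← map_mul, mkT_rel S 𝒮 (.idem i)]

theorem pT_orth {i j : ℤ} (h : i ≠ j) : pT S 𝒮 i * pT S 𝒮 j = 0 := by
  unfold pT; rw [← map_mul, mkT_rel S 𝒮 (.orth i j h), map_zero]

theorem pT_rT (i j : ℤ) (a : S) (ha : a ∈ 𝒮 j) :
    pT S 𝒮 (i + j) * rT S 𝒮 a = rT S 𝒮 a * pT S 𝒮 i := by
  have := mkT_rel S 𝒮 (.comm i j a ha)
  rw [map_mul, map_mul] at this
  exact this

theorem T_induction {P : TT S 𝒮 → Prop} (hr : ∀ a, P (rT S 𝒮 a)) (hp : ∀ i, P (pT S 𝒮 i))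
    (hm : ∀ x y, P x → P y → P (x * y)) (ha : ∀ x y, P x → P y → P (x + y)) (t : TT S 𝒮) :
    P t := by
  obtain ⟨x, rfl⟩ := mkT_surj S 𝒮 t
  induction x using FreeAlgebra.induction with
  | grade0 n =>
    have : mkT S 𝒮 (algebraMap ℤ _ n) = rT S 𝒮 (n : S) := by
      rw [map_intCast, eq_intCast, map_intCast]
    rw [this]; exact hr _
  | grade1 x =>
    rcases x with a | i
    · exact hr a
    · exact hp i
  | mul a b h1 h2 => rw [map_mul]; exact hm _ _ h1 h2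
  | add a b h1 h2 => rw [map_add]; exact ha _ _ h1 h2

/-- universal property -/
theorem exists_liftT {E : Type u} [Ring E] (f : S →+* E) (p : ℤ → E) (h1 : ∀ i, p i * p i = p i)
    (h2 : ∀ i j, i ≠ j → p i * p j = 0)
    (h3 : ∀ i j a, a ∈ 𝒮 j → p (i + j) * f a = f a * p i) :
    ∃ g : TT S 𝒮 →+* E, (∀ a, g (rT S 𝒮 a) = f a) ∧ ∀ i, g (pT S 𝒮 i) = p i := by
  let φ : FreeAlgebra ℤ (S ⊕ ℤ) →+* E :=
    (FreeAlgebra.lift ℤ (Sum.elim (fun a => f a) p)).toRingHom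
  have hφl : ∀ a, φ (FreeAlgebra.ι ℤ (Sum.inl a)) = f a := by
    intro a
    change FreeAlgebra.lift ℤ _ (FreeAlgebra.ι ℤ _) = _
    rw [FreeAlgebra.lift_ι_apply]; rfl
  have hφr : ∀ i, φ (FreeAlgebra.ι ℤ (Sum.inr i)) = p i := by
    intro a
    change FreeAlgebra.lift ℤ _ (FreeAlgebra.ι ℤ _) = _
    rw [FreeAlgebra.lift_ι_apply]; rfl
  have hrel : ∀ ⦃x y⦄, Rel S 𝒮 x y → φ x = φ y := by
    intro x y h
    cases h with
    | one => rw [hφl, map_one, map_one]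
    | add a b => rw [map_add, hφl, hφl, hφl, map_add]
    | mul a b => rw [map_mul, hφl, hφl, hφl, map_mul]
    | idem i => rw [map_mul, hφr, h1]
    | orth i j h => rw [map_mul, hφr, hφr, map_zero, h2 i j h]
    | comm i j a ha => rw [map_mul, map_mul, hφr, hφr, hφl, h3 i j a ha]
  refine ⟨RingQuot.lift ⟨φ, hrel⟩, ?_, ?_⟩
  · intro a
    have : RingQuot.lift ⟨φ, hrel⟩ (RingQuot.mkRingHom (Rel S 𝒮)
      (FreeAlgebra.ι ℤ (Sum.inl a))) = φ (FreeAlgebra.ι ℤ (Sum.inl a)) :=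
      RingQuot.lift_mkRingHom_apply _ _ _
    rw [← hφl a, ← this]; rfl
  · intro i
    have : RingQuot.lift ⟨φ, hrel⟩ (RingQuot.mkRingHom (Rel S 𝒮)
      (FreeAlgebra.ι ℤ (Sum.inr i))) = φ (FreeAlgebra.ι ℤ (Sum.inr i)) :=
      RingQuot.lift_mkRingHom_apply _ _ _
    rw [← hφr i, ← this]; rfl

noncomputable def liftT {E : Type u} [Ring E] (f : S →+* E) (p : ℤ → E)
    (h1 : ∀ i, p i * p i = p i) (h2 : ∀ i j, i ≠ j → p i * p j = 0)
    (h3 : ∀ i j a, a ∈ 𝒮 j → p (i + j) * f a = f a * p i) : TT S 𝒮 →+* E :=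
  (exists_liftT S 𝒮 f p h1 h2 h3).choose

theorem liftT_r {E : Type u} [Ring E] (f : S →+* E) (p : ℤ → E) (h1 : ∀ i, p i * p i = p i)
    (h2 : ∀ i j, i ≠ j → p i * p j = 0)
    (h3 : ∀ i j a, a ∈ 𝒮 j → p (i + j) * f a = f a * p i) (a : S) :
    liftT S 𝒮 f p h1 h2 h3 (rT S 𝒮 a) = f a := (exists_liftT S 𝒮 f p h1 h2 h3).choose_spec.1 a

theorem liftT_p {E : Type u} [Ring E] (f : S →+* E) (p : ℤ → E) (h1 : ∀ i, p i * p i = p i)
    (h2 : ∀ i j, i ≠ j → p i * p j = 0)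
    (h3 : ∀ i j a, a ∈ 𝒮 j → p (i + j) * f a = f a * p i) (i : ℤ) :
    liftT S 𝒮 f p h1 h2 h3 (pT S 𝒮 i) = p i := (exists_liftT S 𝒮 f p h1 h2 h3).choose_spec.2 i

/-- shift homomorphism -/
noncomputable def sg (d : ℤ) : TT S 𝒮 →+* TT S 𝒮 :=
  liftT S 𝒮 (rT S 𝒮) (fun i => pT S 𝒮 (i + d)) (fun i => pT_idem S 𝒮 _)
    (fun i j h => pT_orth S 𝒮 (by omega))
    (fun i j a ha => by
      have : i + j + d = (i + d) + j := by ring
      rw [this]; exact pT_rT S 𝒮 _ _ a ha)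

theorem sg_r (d : ℤ) (a : S) : sg S 𝒮 d (rT S 𝒮 a) = rT S 𝒮 a := liftT_r ..

theorem sg_p (d i : ℤ) : sg S 𝒮 d (pT S 𝒮 i) = pT S 𝒮 (i + d) := liftT_p ..

theorem sg_comp (d e : ℤ) (t : TT S 𝒮) : sg S 𝒮 d (sg S 𝒮 e t) = sg S 𝒮 (e + d) t := by
  induction t using T_induction with
  | hr a => rw [sg_r, sg_r, sg_r]
  | hp i => rw [sg_p, sg_p, sg_p]; congr 1; ring
  | hm x y h1 h2 => rw [map_mul, map_mul, map_mul, h1, h2]
  | ha x y h1 h2 => rw [map_add, map_add, map_add, h1, h2]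

theorem sg_surj (d : ℤ) : Function.Surjective (sg S 𝒮 d) := by
  intro t
  refine ⟨sg S 𝒮 (-d) t, ?_⟩
  rw [sg_comp]
  induction t using T_induction with
  | hr a => rw [sg_r]
  | hp i => rw [sg_p]; congr 1; ring
  | hm x y h1 h2 => rw [map_mul, h1, h2]
  | ha x y h1 h2 => rw [map_add, h1, h2]

noncomputable instance : Module S (TT S 𝒮) := Module.compHom _ (rT S 𝒮)

instance : IsScalarTower S (TT S 𝒮) (TT S 𝒮) := ⟨fun a t t' => by
  change (rT S 𝒮 a * t) * t' = rT S 𝒮 a * (t * t')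
  rw [mul_assoc]⟩

end

section modules

variable {S : Type u} [Ring S] {𝒮 : ℤ → AddSubgroup S}
variable {V : Type u} [AddCommGroup V] [Module S V] [Module (TT S 𝒮) V]
  [IsScalarTower S (TT S 𝒮) V]

theorem rT_smul (a : S) (v : V) : rT S 𝒮 a • v = a • v := by
  have : rT S 𝒮 a = a • (1 : TT S 𝒮) := by
    change _ = rT S 𝒮 a * 1
    rw [mul_one]
  rw [this, smul_assoc, one_smul]

variable (S 𝒮) in
/-- locally finite -/
def LF (V : Type u) [AddCommGroup V] [Module (TT S 𝒮) V] : Prop :=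
  ∀ v : V, ∃ s : Finset ℤ, v = ∑ i ∈ s, pT S 𝒮 i • v

theorem p_p (i j : ℤ) (v : V) :
    pT S 𝒮 i • pT S 𝒮 j • v = if i = j then pT S 𝒮 j • v else 0 := by
  rw [← mul_smul]
  split_ifs with h
  · rw [h, pT_idem]
  · rw [pT_orth S 𝒮 h, zero_smul]

theorem p_same (i : ℤ) (v : V) : pT S 𝒮 i • pT S 𝒮 i • v = pT S 𝒮 i • v := by
  rw [p_p, if_pos rfl]

theorem p_ne {i j : ℤ} (h : i ≠ j) (v : V) : pT S 𝒮 i • pT S 𝒮 j • v = 0 := by
  rw [p_p, if_neg h]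

theorem p_smul {k : ℤ} {a : S} (ha : a ∈ 𝒮 k) (i : ℤ) (v : V) :
    pT S 𝒮 i • a • v = a • pT S 𝒮 (i - k) • v := by
  rw [← rT_smul (𝒮 := 𝒮) a v, ← rT_smul (𝒮 := 𝒮) a (pT S 𝒮 (i - k) • v), ← mul_smul,
    ← mul_smul]
  congr 1
  have := pT_rT S 𝒮 (i - k) k a ha
  rwa [sub_add_cancel] at this

theorem LF.sub (h : LF S 𝒮 V) (N : Submodule (TT S 𝒮) V) : LF S 𝒮 N := by
  intro v
  obtain ⟨s, hs⟩ := h v
  refine ⟨s, ?_⟩
  apply Subtype.ext
  rw [hs]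
  simp only [AddSubmonoidClass.coe_finsetSum, Submodule.coe_smul]

theorem LF.quot (h : LF S 𝒮 V) (N : Submodule (TT S 𝒮) V) : LF S 𝒮 (V ⧸ N) := by
  intro v
  obtain ⟨w, rfl⟩ := N.mkQ_surjective v
  obtain ⟨s, hs⟩ := h w
  refine ⟨s, ?_⟩
  conv_lhs => rw [hs]
  rw [map_sum]
  simp

theorem LF.of_surj {W : Type u} [AddCommGroup W] [Module (TT S 𝒮) W] (h : LF S 𝒮 V)
    (f : V →ₗ[TT S 𝒮] W) (hf : Function.Surjective f) : LF S 𝒮 W := by
  intro v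
  obtain ⟨w, rfl⟩ := hf v
  obtain ⟨s, hs⟩ := h w
  refine ⟨s, ?_⟩
  conv_lhs => rw [hs]
  rw [map_sum]
  simp

theorem LF.finset {s : Finset ℤ} {v : V} (hs : v = ∑ i ∈ s, pT S 𝒮 i • v) {i : ℤ}
    (hi : i ∉ s) : pT S 𝒮 i • v = 0 := by
  rw [hs, Finset.smul_sum]
  apply Finset.sum_eq_zero
  intro j hj
  exact p_ne (by rintro rfl; exact hi hj) v

theorem LF.finite (h : LF S 𝒮 V) (v : V) : {i | pT S 𝒮 i • v ≠ 0}.Finite := by
  obtain ⟨s, hs⟩ := h v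
  apply s.finite_toSet.subset
  intro i hi
  by_contra hcon
  exact hi (LF.finset hs hcon)

theorem LF.eq_zero (h : LF S 𝒮 V) {v : V} (hv : ∀ i, pT S 𝒮 i • v = 0) : v = 0 := by
  obtain ⟨s, hs⟩ := h v
  rw [hs]
  exact Finset.sum_eq_zero fun i _ => hv i

/-- sum over any finset containing the support -/
theorem LF.sum (h : LF S 𝒮 V) {v : V} {t : Finset ℤ} (ht : ∀ i, i ∉ t → pT S 𝒮 i • v = 0) :
    v = ∑ i ∈ t, pT S 𝒮 i • v := by
  obtain ⟨s, hs⟩ := h v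
  have e1 : ∑ i ∈ s, pT S 𝒮 i • v = ∑ i ∈ s ∪ t, pT S 𝒮 i • v :=
    Finset.sum_subset Finset.subset_union_left fun i _ hi => LF.finset hs hi
  have e2 : ∑ i ∈ t, pT S 𝒮 i • v = ∑ i ∈ s ∪ t, pT S 𝒮 i • v :=
    Finset.sum_subset Finset.subset_union_right fun i _ hi => ht i hi
  rw [e2, ← e1]
  exact hs

/-- T-linear maps from additive maps that commute with scalars and projections. -/
def mkLin {W : Type u} [AddCommGroup W] [Module S W] [Module (TT S 𝒮) W]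
    [IsScalarTower S (TT S 𝒮) W] (f : V →+ W) (h1 : ∀ (a : S) v, f (a • v) = a • f v)
    (h2 : ∀ i v, f (pT S 𝒮 i • v) = pT S 𝒮 i • f v) : V →ₗ[TT S 𝒮] W where
  toFun := f
  map_add' := f.map_add
  map_smul' t := by
    simp only [RingHom.id_apply]
    induction t using T_induction with
    | hr a => intro v; rw [rT_smul, rT_smul, h1]
    | hp i => intro v; exact h2 i v
    | hm x y hx hy => intro v; rw [mul_smul, hx, hy, mul_smul]
    | ha x y hx hy => intro v; rw [add_smul, map_add, hx, hy, add_smul]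

end modules

section shift

variable {S : Type u} [Ring S] {𝒮 : ℤ → AddSubgroup S}

/-- shifted module -/
def Shift (_ : ℤ) (V : Type u) : Type u := V

variable {V : Type u} [AddCommGroup V] [Module S V] [Module (TT S 𝒮) V]
  [IsScalarTower S (TT S 𝒮) V] (d : ℤ)

instance : AddCommGroup (Shift d V) := inferInstanceAs (AddCommGroup V)
instance : Module S (Shift d V) := inferInstanceAs (Module S V)
noncomputable instance : Module (TT S 𝒮) (Shift d V) :=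
  Module.compHom V (sg S 𝒮 d)

theorem shift_smul (t : TT S 𝒮) (v : Shift d V) :
    t • v = (show Shift d V from sg S 𝒮 d t • (show V from v)) := rfl

instance : IsScalarTower S (TT S 𝒮) (Shift d V) := ⟨fun a t v => by
  change sg S 𝒮 d (rT S 𝒮 a * t) • (show V from v) = a • (sg S 𝒮 d t • (show V from v))
  rw [map_mul, sg_r, mul_smul, rT_smul]⟩

end shift

end X233.GP
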